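import Mathlib

/-!
# Integrals over triangles with a distinguished vertex
-/

open MeasureTheory Set

namespace Pool.Agent.MP_50360a_an

/-- The Euclidean plane. -/
abbrev E := EuclideanSpace ℝ (Fin 2)

/-- The determinant of two plane vectors. -/
noncomputable def det2 (p q : E) : ℝ := p 0 * q 1 - p 1 * q 0

/-- The linear map with columns `p` and `q`. -/
noncomputable def lin (p q : E) : E →L[ℝ] E :=
  (EuclideanSpace.proj (0 : Fin 2) : E →L[ℝ] ℝ).smulRight p +
    (EuclideanSpace.proj (1 : Fin 2) : E →L[ℝ] ℝ).smulRight q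

lemma lin_apply (p q y : E) : lin p q y = y 0 • p + y 1 • q := by
  simp [lin]

lemma det_lin (p q : E) : (lin p q).det = det2 p q := by
  rw [ContinuousLinearMap.det, ← LinearMap.det_toMatrix (EuclideanSpace.basisFun (Fin 2) ℝ).toBasis,
    Matrix.det_fin_two]
  simp [LinearMap.toMatrix_apply, lin, det2]
  ring

/-- The standard triangle `0 ≤ w ≤ u ≤ 1` as a subset of the plane. -/
def Dl : Set E := {y | 0 ≤ y 1 ∧ y 1 ≤ y 0 ∧ y 0 ≤ 1}

lemma Dl_closed : IsClosed Dl := by
  have h0 : Continuous fun y : E => y 0 := by fun_prop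
  have h1 : Continuous fun y : E => y 1 := by fun_prop
  exact (isClosed_le continuous_const h1).inter
    ((isClosed_le h1 h0).inter (isClosed_le h0 continuous_const))

/-- The triangle with vertices `v`, `a`, `b`. -/
def tri (v a b : E) : Set E := convexHull ℝ {v, a, b}

lemma mem_tri {v a b x : E} : x ∈ tri v a b ↔
    ∃ α β γ : ℝ, 0 ≤ α ∧ 0 ≤ β ∧ 0 ≤ γ ∧ α + β + γ = 1 ∧ α • v + β • a + γ • b = x := by
  rw [tri, convexHull_insert (by simp), mem_convexJoin]
  constructor
  · rintro ⟨v', hv', y, hy, hx⟩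
    rw [mem_singleton_iff] at hv'
    subst hv'
    rw [convexHull_pair, segment_eq_image] at hy
    obtain ⟨s, hs, rfl⟩ := hy
    rw [segment_eq_image] at hx
    obtain ⟨t, ht, rfl⟩ := hx
    refine ⟨1 - t, t * (1 - s), t * s, by linarith [ht.2], mul_nonneg ht.1 (by linarith [hs.2]),
      mul_nonneg ht.1 hs.1, by ring, ?_⟩
    simp only [smul_add, smul_smul]
    abel
  · rintro ⟨α, β, γ, hα, hβ, hγ, h, rfl⟩
    refine ⟨v, mem_singleton _, ?_⟩
    by_cases h0 : β + γ = 0
    · have hb : β = 0 := by linarith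
      have hc : γ = 0 := by linarith
      have ha : α = 1 := by linarith
      subst hb hc ha
      exact ⟨a, subset_convexHull ℝ _ (by simp), by simpa using left_mem_segment ℝ _ _⟩
    · have hpos : 0 < β + γ := lt_of_le_of_ne (by linarith) (Ne.symm h0)
      refine ⟨(β / (β + γ)) • a + (γ / (β + γ)) • b, ?_, ?_⟩
      · rw [convexHull_pair]
        exact ⟨β / (β + γ), γ / (β + γ), by positivity, by positivity, by field_simp, rfl⟩
      · refine ⟨α, β + γ, hα, by linarith, by linarith, ?_⟩
        rw [smul_add, smul_smul, smul_smul, mul_div_cancel₀ _ h0, mul_div_cancel₀ _ h0, add_assoc]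

lemma tri_eq_image (v a b : E) :
    tri v a b = (fun y => v + lin (a - v) (b - a) y) '' Dl := by
  ext x
  rw [mem_tri]
  constructor
  · rintro ⟨α, β, γ, hα, hβ, hγ, h, rfl⟩
    refine ⟨!₂[β + γ, γ], ⟨by simpa using hγ, by simpa using hβ, ?_⟩, ?_⟩
    · have : β + γ ≤ 1 := by linarith
      simpa using this
    · have : α = 1 - β - γ := by linarith
      subst this
      simp only [lin_apply]
      ext i
      simp
      ring
  · rintro ⟨y, ⟨h1, h2, h3⟩, rfl⟩
    refine ⟨1 - y 0, y 0 - y 1, y 1, by linarith, by linarith, h1, by ring, ?_⟩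
    simp only [lin_apply]
    ext i
    simp
    ring


/-- The measurable equivalence between the product and the plane. -/
noncomputable def eqv : ℝ × ℝ ≃ᵐ E :=
  (MeasurableEquiv.finTwoArrow (α := ℝ)).symm.trans (MeasurableEquiv.toLp 2 (Fin 2 → ℝ))

lemma eqv_apply (u w : ℝ) : eqv (u, w) = !₂[u, w] := rfl

lemma eqv_mp : MeasurePreserving eqv volume volume :=
  ((volume_preserving_finTwoArrow ℝ).symm _).trans
    ((EuclideanSpace.volume_preserving_symm_measurableEquiv_toLp (Fin 2)).symm _)

/-- The standard triangle in the product. -/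
def Dp : Set (ℝ × ℝ) := {z | 0 ≤ z.2 ∧ z.2 ≤ z.1 ∧ z.1 ≤ 1}

lemma Dp_closed : IsClosed Dp :=
  (isClosed_le continuous_const continuous_snd).inter
    ((isClosed_le continuous_snd continuous_fst).inter (isClosed_le continuous_fst continuous_const))

lemma eqv_preimage : eqv ⁻¹' Dl = Dp := by
  ext ⟨u, w⟩
  simp [Dl, Dp, eqv_apply]

lemma Dp_subset : Dp ⊆ Icc 0 1 ×ˢ Icc 0 1 := by
  rintro ⟨u, w⟩ ⟨h1, h2, h3⟩
  simp only at h1 h2 h3
  exact ⟨⟨by linarith, h3⟩, ⟨h1, by linarith⟩⟩

lemma Dp_compact : IsCompact Dp :=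
  (isCompact_Icc.prod isCompact_Icc).of_isClosed_subset Dp_closed Dp_subset

lemma integral_Dp (g : ℝ × ℝ → ℝ) (hg : Continuous g) :
    ∫ z in Dp, g z = ∫ u in (0 : ℝ)..1, ∫ w in (0 : ℝ)..u, g (u, w) := by
  rw [← integral_indicator Dp_closed.measurableSet, Measure.volume_eq_prod, integral_prod]
  · rw [intervalIntegral.integral_of_le zero_le_one, ← integral_Icc_eq_integral_Ioc,
      ← integral_indicator measurableSet_Icc]
    congr 1
    ext u
    by_cases hu : u ∈ Icc (0 : ℝ) 1
    · rw [indicator_of_mem hu, intervalIntegral.integral_of_le hu.1, ← integral_Icc_eq_integral_Ioc,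
        ← integral_indicator measurableSet_Icc]
      congr 1
      ext w
      by_cases hw : w ∈ Icc 0 u
      · rw [indicator_of_mem hw, indicator_of_mem]
        exact ⟨hw.1, hw.2, hu.2⟩
      · rw [indicator_of_notMem hw, indicator_of_notMem]
        rintro ⟨h1, h2, h3⟩
        exact hw ⟨h1, h2⟩
    · rw [indicator_of_notMem hu]
      have : ∀ w, Dp.indicator g (u, w) = 0 := by
        intro w
        rw [indicator_of_notMem]
        rintro ⟨h1, h2, h3⟩
        simp only at h1 h2 h3
        exact hu ⟨by linarith, h3⟩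
      simp [this]
  · rw [← Measure.volume_eq_prod]
    exact (hg.continuousOn.integrableOn_compact Dp_compact).integrable_indicator
      Dp_closed.measurableSet

lemma integral_Dl (g : E → ℝ) (hg : Continuous g) :
    ∫ y in Dl, g y = ∫ u in (0 : ℝ)..1, ∫ w in (0 : ℝ)..u, g !₂[u, w] := by
  rw [← eqv_mp.setIntegral_preimage_emb eqv.measurableEmbedding, eqv_preimage]
  have hc : Continuous fun z : ℝ × ℝ => g (eqv z) := by
    refine hg.comp ?_
    show Continuous fun z : ℝ × ℝ => (!₂[z.1, z.2] : E)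
    fun_prop
  rw [integral_Dp _ hc]
  rfl

lemma lin_injective {p q : E} (h : det2 p q ≠ 0) : Function.Injective (lin p q) := by
  have h2 : LinearMap.det (lin p q : E →ₗ[ℝ] E) ≠ 0 := by
    have := det_lin p q
    rw [ContinuousLinearMap.det] at this
    rwa [this]
  have := (LinearMap.equivOfDetNeZero (lin p q : E →ₗ[ℝ] E) h2).injective
  exact this

lemma integral_tri (v a b : E) (hd : det2 (a - v) (b - a) ≠ 0) (h : E → ℝ) (hh : Continuous h) :
    ∫ x in tri v a b, h x = |det2 (a - v) (b - a)| *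
      ∫ u in (0 : ℝ)..1, ∫ w in (0 : ℝ)..u, h (v + u • (a - v) + w • (b - a)) := by
  rw [tri_eq_image, integral_image_eq_integral_abs_det_fderiv_smul volume
    Dl_closed.measurableSet (f' := fun _ => lin (a - v) (b - a))]
  · simp only [det_lin, smul_eq_mul]
    rw [integral_const_mul, integral_Dl]
    · congr 1
      refine intervalIntegral.integral_congr fun u _ => ?_
      refine intervalIntegral.integral_congr fun w _ => ?_
      simp [lin_apply, add_assoc]
    · exact hh.comp (continuous_const.add (lin _ _).continuous)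
  · intro x _
    exact ((lin (a - v) (b - a)).hasFDerivAt.const_add v).hasFDerivWithinAt
  · intro x _ y _ hxy
    exact lin_injective hd (by simpa using hxy)


lemma tri_compact (v a b : E) : IsCompact (tri v a b) := by
  rw [tri]
  exact (Set.toFinite {v, a, b}).isCompact_convexHull (𝕜 := ℝ)

lemma volume_tri (v a b : E) (hd : det2 (a - v) (b - a) ≠ 0) :
    volume.real (tri v a b) = |det2 (a - v) (b - a)| / 2 := by
  have h := integral_tri v a b hd (fun _ => 1) continuous_const
  rw [setIntegral_const, smul_eq_mul, mul_one] at h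
  rw [h]
  have : ∫ u in (0 : ℝ)..1, ∫ w in (0 : ℝ)..u, (1 : ℝ) = 1 / 2 := by
    simp
  rw [this]
  ring

lemma moment_tri (v a b : E) (hd : det2 (a - v) (b - a) ≠ 0) :
    ∫ x in tri v a b, ‖x - v‖ = |det2 (a - v) (b - a)| / 3 *
      ∫ k in (0 : ℝ)..1, ‖(a - v) + k • (b - a)‖ := by
  rw [integral_tri v a b hd _ (by fun_prop)]
  have h1 : ∀ u ∈ uIcc (0 : ℝ) 1,
      ∫ w in (0 : ℝ)..u, ‖v + u • (a - v) + w • (b - a) - v‖ =
        u ^ 2 * ∫ k in (0 : ℝ)..1, ‖(a - v) + k • (b - a)‖ := by
    intro u hu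
    rw [uIcc_of_le zero_le_one] at hu
    have h2 := intervalIntegral.smul_integral_comp_mul_left (a := 0) (b := 1)
      (fun w => ‖v + u • (a - v) + w • (b - a) - v‖) u
    rw [mul_zero, mul_one] at h2
    rw [← h2, smul_eq_mul, pow_two, mul_assoc]
    congr 1
    rw [← intervalIntegral.integral_const_mul]
    refine intervalIntegral.integral_congr fun k _ => ?_
    have : v + u • (a - v) + (u * k) • (b - a) - v = u • ((a - v) + k • (b - a)) := by
      rw [smul_add, smul_smul]
      abel
    show ‖v + u • (a - v) + (u * k) • (b - a) - v‖ = u * ‖(a - v) + k • (b - a)‖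
    rw [this, norm_smul, Real.norm_of_nonneg hu.1]
  rw [intervalIntegral.integral_congr h1, intervalIntegral.integral_mul_const]
  simp only [integral_pow]
  ring

lemma integral_sqrt : ∫ k in (0 : ℝ)..1, Real.sqrt (3 + k ^ 2) = 1 + 3 / 4 * Real.log 3 := by
  have hF : ∀ k ∈ uIcc (0 : ℝ) 1, HasDerivAt
      (fun k => (k * Real.sqrt (3 + k ^ 2) + 3 * Real.log (k + Real.sqrt (3 + k ^ 2))) / 2)
      (Real.sqrt (3 + k ^ 2)) k := by
    intro k hk
    rw [uIcc_of_le zero_le_one] at hk
    have hpos : (0 : ℝ) < 3 + k ^ 2 := by positivity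
    have hs : 0 < Real.sqrt (3 + k ^ 2) := Real.sqrt_pos.2 hpos
    have hsq : Real.sqrt (3 + k ^ 2) ^ 2 = 3 + k ^ 2 := Real.sq_sqrt hpos.le
    have h1 : HasDerivAt (fun k : ℝ => 3 + k ^ 2) (2 * k) k := by
      simpa using ((hasDerivAt_pow 2 k).const_add 3)
    have h2 := h1.sqrt hpos.ne'
    have h3 : 0 < k + Real.sqrt (3 + k ^ 2) := by linarith [hk.1]
    have h4 := (((hasDerivAt_id k).mul h2).add
      ((((hasDerivAt_id k).add h2).log h3.ne').const_mul 3)).div_const 2
    refine h4.congr_deriv ?_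
    simp only [id, Pi.add_apply]
    field_simp
    nlinarith [hsq]
  rw [intervalIntegral.integral_eq_sub_of_hasDerivAt hF]
  · have h3 : Real.sqrt (3 + 1 ^ 2) = 2 := by
      rw [show (3 + 1 ^ 2 : ℝ) = 2 ^ 2 by norm_num, Real.sqrt_sq (by norm_num)]
    have h4 : Real.log (Real.sqrt 3) = Real.log 3 / 2 := Real.log_sqrt (by norm_num)
    rw [h3]
    norm_num [h4]
    ring
  · apply Continuous.intervalIntegrable
    fun_prop


lemma setIntegral_le_sum {ι : Type*} [Fintype ι] {A : ι → Set E} {T : Set E}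
    (hT : T ≤ᵐ[volume] ⋃ i, A i) (h : E → ℝ) (h0 : 0 ≤ h)
    (hi : ∀ i, IntegrableOn h (A i)) :
    ∫ x in T, h x ≤ ∑ i, ∫ x in A i, h x := by
  rw [← integral_finsetSum_measure (fun i _ => hi i)]
  refine integral_mono_measure ?_ (Filter.Eventually.of_forall h0)
    (integrable_finsetSum_measure.2 fun i _ => hi i)
  refine (Measure.restrict_mono_ae hT).trans ?_
  refine Measure.restrict_iUnion_le.trans ?_
  rw [Measure.sum_fintype]

end Pool.Agent.MP_50360a_an
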