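import Pool.Agent.Lib.MP_50360a_an.Triangle

/-!
# Empty discs and the Delaunay triangulation
-/

open MeasureTheory Set Filter Topology

namespace Pool.Agent.MP_50360a_an

/-- An empty disc with the point `x` in the convex hull of its contact points. -/
lemma exists_empty_disc (P : Finset E) (x : E)
    (hc : ∀ z : E, ∃ p ∈ P, ‖z‖ ≤ inner ℝ z (p - x)) :
    ∃ (z : E) (R : ℝ), (∀ p ∈ P, R ≤ dist p z) ∧
      x ∈ convexHull ℝ {p | p ∈ P ∧ dist p z = R} := by
  have hne : P.Nonempty := by
    obtain ⟨p, hp, -⟩ := hc 0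
    exact ⟨p, hp⟩
  set val : E → E → ℝ := fun w p => ‖p - x‖ ^ 2 - 2 * inner ℝ w (p - x) with hval
  set φ : E → ℝ := fun w => P.inf' hne (val w) with hφ
  have hφc : Continuous φ := by
    apply Continuous.finset_inf'_apply
    intro p _
    fun_prop
  have hmax : ∃ w, ∀ y, φ y ≤ φ w := by
    refine hφc.exists_forall_ge' 0 ?_
    have h1 := (tendsto_norm_cocompact_atTop (E := E)).eventually_ge_atTop
      (P.sup' hne fun p => ‖p - x‖ ^ 2)
    filter_upwards [h1] with w hw
    have h0 : 0 ≤ φ 0 := by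
      simp only [hφ, hval]
      rw [Finset.le_inf'_iff]
      intro p _
      simp
    obtain ⟨p, hp, hpz⟩ := hc w
    have h2 : φ w ≤ val w p := Finset.inf'_le _ hp
    have h3 : ‖p - x‖ ^ 2 ≤ P.sup' hne fun p => ‖p - x‖ ^ 2 :=
      Finset.le_sup' (fun p => ‖p - x‖ ^ 2) hp
    have h4 : val w p = ‖p - x‖ ^ 2 - 2 * inner ℝ w (p - x) := rfl
    have h5 : 0 ≤ ‖w‖ := norm_nonneg _
    linarith
  obtain ⟨w, hw⟩ := hmax
  set m := φ w with hm
  have hmle : ∀ p ∈ P, m ≤ val w p := fun p hp => Finset.inf'_le _ hp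
  have hkey : ∀ p, dist p (x + w) ^ 2 = val w p + ‖w‖ ^ 2 := by
    intro p
    rw [dist_eq_norm, show p - (x + w) = (p - x) - w by abel, norm_sub_sq_real, hval]
    simp only
    rw [real_inner_comm]
  obtain ⟨p0, hp0, hp0m⟩ := Finset.exists_mem_eq_inf' hne (val w)
  have hR : dist p0 (x + w) ^ 2 = m + ‖w‖ ^ 2 := by
    rw [hkey, ← hp0m]
  refine ⟨x + w, dist p0 (x + w), ?_, ?_⟩
  · intro p hp
    have := hmle p hp
    refine (pow_le_pow_iff_left₀ dist_nonneg dist_nonneg two_ne_zero).1 ?_
    rw [hR, hkey]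
    linarith
  · have hV : {p | p ∈ P ∧ dist p (x + w) = dist p0 (x + w)} = {p | p ∈ P ∧ val w p = m} := by
      ext p
      simp only [mem_ofPred_eq, and_congr_right_iff]
      intro hp
      rw [← pow_left_inj₀ dist_nonneg dist_nonneg two_ne_zero, hR, hkey]
      constructor <;> intro h <;> linarith
    rw [hV]
    by_contra hx
    have hfin : {p | p ∈ P ∧ val w p = m}.Finite := P.finite_toSet.subset fun p hp => hp.1
    obtain ⟨f, u, hfx, hfu⟩ := geometric_hahn_banach_point_closed (convex_convexHull ℝ _)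
      (hfin.isClosed_convexHull ℝ) hx
    set v := (InnerProductSpace.toDual ℝ E).symm f with hv
    have hvf : ∀ y, inner ℝ v y = f y := fun y => by
      rw [hv, InnerProductSpace.toDual_symm_apply]
    have hval2 : ∀ (s : ℝ) p, val (w - s • v) p = val w p + 2 * s * f (p - x) := by
      intro s p
      simp only [hval]
      rw [inner_sub_left, real_inner_smul_left, hvf]
      ring
    have hev : ∀ p ∈ P, ∀ᶠ s in 𝓝[>] (0 : ℝ), m < val (w - s • v) p := by
      intro p hp
      by_cases hpm : val w p = m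
      · have h1 : u < f p := hfu p (subset_convexHull ℝ _ ⟨hp, hpm⟩)
        filter_upwards [self_mem_nhdsWithin] with s hs
        have hs' : (0 : ℝ) < s := hs
        rw [hval2, hpm, map_sub]
        have : 0 < 2 * s * (f p - f x) := by
          apply mul_pos (by linarith)
          linarith
        linarith
      · have h1 : m < val w p := lt_of_le_of_ne (hmle p hp) (Ne.symm hpm)
        have h2 : Tendsto (fun s : ℝ => val w p + 2 * s * f (p - x)) (𝓝[>] 0)
            (𝓝 (val w p + 2 * 0 * f (p - x))) := by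
          apply Tendsto.mono_left _ nhdsWithin_le_nhds
          apply Continuous.tendsto
          fun_prop
        have h3 := h2.eventually (lt_mem_nhds (a := m) (by simpa using h1))
        filter_upwards [h3] with s hs
        rw [hval2]
        exact hs
    have hall := (eventually_all_finset P).2 hev
    obtain ⟨s, hs⟩ := hall.exists
    have : m < φ (w - s • v) := by
      simp only [hφ]
      rw [Finset.lt_inf'_iff]
      exact hs
    exact absurd (hw (w - s • v)) (not_le.2 this)


/-- The union of the lines through pairs of points of `P`. -/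
def lines (P : Finset E) : Set E := ⋃ a ∈ P, ⋃ b ∈ P, (affineSpan ℝ {a, b} : Set E)

lemma volume_lines (P : Finset E) : volume (lines P) = 0 := by
  refine (measure_biUnion_null_iff P.countable_toSet).2 fun a _ => ?_
  refine (measure_biUnion_null_iff P.countable_toSet).2 fun b _ => ?_
  apply Measure.addHaar_affineSubspace
  intro h
  have h1 := (collinear_iff_finrank_le_one (k := ℝ)).1 (collinear_pair ℝ a b)
  rw [← direction_affineSpan, h, AffineSubspace.direction_top, finrank_top,
    finrank_euclideanSpace_fin] at h1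
  omega

/-- Delaunay triples of `P`. -/
def IsDel (P t : Finset E) : Prop :=
  t ⊆ P ∧ t.card = 3 ∧ ∃ (z : E) (R : ℝ), (∀ p ∈ P, R ≤ dist p z) ∧ ∀ p ∈ t, dist p z = R

lemma exists_isDel {P : Finset E} {x : E} (hx : x ∉ lines P)
    (hc : ∀ z : E, ∃ p ∈ P, ‖z‖ ≤ inner ℝ z (p - x)) :
    ∃ t, IsDel P t ∧ x ∈ convexHull ℝ (t : Set E) := by
  obtain ⟨z, R, h1, h2⟩ := exists_empty_disc P x hc
  rw [convexHull_eq_union] at h2
  simp only [mem_iUnion, exists_prop] at h2
  obtain ⟨t, htV, hind, hxt⟩ := h2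
  have htP : t ⊆ P := fun p hp => (htV hp).1
  refine ⟨t, ⟨htP, ?_, z, R, h1, fun p hp => (htV hp).2⟩, hxt⟩
  have hcard : t.card ≤ 3 := by
    have := hind.card_le_finrank_succ
    rw [Fintype.card_coe] at this
    have h3 := (vectorSpan ℝ (range ((↑) : t → E))).finrank_le
    rw [finrank_euclideanSpace_fin] at h3
    omega
  by_contra hne
  have h4 : t.card = 0 ∨ t.card = 1 ∨ t.card = 2 := by omega
  apply hx
  simp only [lines, mem_iUnion, exists_prop]
  rcases h4 with h4 | h4 | h4
  · rw [Finset.card_eq_zero] at h4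
    subst h4
    simp at hxt
  · rw [Finset.card_eq_one] at h4
    obtain ⟨a, rfl⟩ := h4
    simp only [Finset.coe_singleton, convexHull_singleton, mem_singleton_iff] at hxt
    subst hxt
    exact ⟨x, htP (by simp), x, htP (by simp), left_mem_affineSpan_pair ℝ _ _⟩
  · rw [Finset.card_eq_two] at h4
    obtain ⟨a, b, -, rfl⟩ := h4
    refine ⟨a, htP (by simp), b, htP (by simp), ?_⟩
    apply convexHull_subset_affineSpan
    simpa using hxt

/-- No four points of `P` lie on a circle. -/
def Generic (P : Finset E) : Prop :=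
  ∀ (z : E) (R : ℝ), ∀ t ⊆ P, (∀ p ∈ t, dist p z = R) → t.card ≤ 3

lemma hyperplane_null {w : E} (hw : w ≠ 0) (c : ℝ) : volume {x : E | inner ℝ w x = c} = 0 := by
  by_cases hne : ∃ y : E, inner ℝ w y = c
  · obtain ⟨y, hy⟩ := hne
    have h1 : volume ((LinearMap.ker (innerₛₗ ℝ w) : Submodule ℝ E) : Set E) = 0 := by
      apply Measure.addHaar_submodule
      intro h
      have : w ∈ LinearMap.ker (innerₛₗ ℝ w) := by
        rw [h]
        trivial
      rw [LinearMap.mem_ker, innerₛₗ_apply_apply, real_inner_self_eq_norm_sq] at this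
      exact hw (by simpa using this)
    have h2 : {x : E | inner ℝ w x = c} =
        (fun x => x - y) ⁻¹' ((LinearMap.ker (innerₛₗ ℝ w) : Submodule ℝ E) : Set E) := by
      ext x
      simp [inner_sub_right, hy, sub_eq_zero]
    rw [h2]
    simp only [sub_eq_add_neg]
    rw [measure_preimage_add_right]
    exact h1
  · have : {x : E | inner ℝ w x = c} = ∅ := by
      ext x
      simp only [mem_ofPred_eq, mem_empty_iff_false, iff_false]
      exact fun h => hne ⟨x, h⟩
    rw [this, measure_empty]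

lemma convexHull_aedisjoint {P t t' : Finset E} (hP : Generic P) (ht : IsDel P t)
    (ht' : IsDel P t') (hne : t ≠ t') :
    AEDisjoint volume (convexHull ℝ (t : Set E)) (convexHull ℝ (t' : Set E)) := by
  classical
  obtain ⟨htP, hc, z, R, hz, hzt⟩ := ht
  obtain ⟨htP', hc', z', R', hz', hzt'⟩ := ht'
  have hR : ∀ {s : Finset E} {y : E} {r : ℝ}, s.card = 3 → (∀ p ∈ s, dist p y = r) → 0 ≤ r := by
    intro s y r hs h
    obtain ⟨p, hp⟩ := Finset.card_pos.1 (by omega : 0 < s.card)
    rw [← h p hp]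
    exact dist_nonneg
  have hR0 := hR hc hzt
  have hR0' := hR hc' hzt'
  set ℓ : E → ℝ := fun x => 2 * inner ℝ (z' - z) x + (‖z‖ ^ 2 - R ^ 2 - ‖z'‖ ^ 2 + R' ^ 2) with hℓ
  have hℓ' : ∀ x, ℓ x = (dist x z ^ 2 - R ^ 2) - (dist x z' ^ 2 - R' ^ 2) := by
    intro x
    show 2 * inner ℝ (z' - z) x + (‖z‖ ^ 2 - R ^ 2 - ‖z'‖ ^ 2 + R' ^ 2) = _
    rw [dist_eq_norm, dist_eq_norm, norm_sub_sq_real, norm_sub_sq_real, inner_sub_left,
      real_inner_comm x z, real_inner_comm x z']
    ring
  have h1 : convexHull ℝ (t : Set E) ⊆ {x | ℓ x ≤ 0} := by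
    apply convexHull_min
    · intro p hp
      show ℓ p ≤ 0
      rw [hℓ', hzt p hp]
      have := hz' p (htP hp)
      nlinarith
    · have : {x | ℓ x ≤ 0} = {x | inner ℝ (z' - z) x ≤
          -(‖z‖ ^ 2 - R ^ 2 - ‖z'‖ ^ 2 + R' ^ 2) / 2} := by
        ext x
        simp only [hℓ, mem_ofPred_eq]
        constructor <;> intro h <;> linarith
      rw [this]
      exact convex_halfSpace_le (innerₛₗ ℝ (z' - z)).isLinear _
  have h2 : convexHull ℝ (t' : Set E) ⊆ {x | 0 ≤ ℓ x} := by
    apply convexHull_min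
    · intro p hp
      show 0 ≤ ℓ p
      rw [hℓ', hzt' p hp]
      have := hz p (htP' hp)
      nlinarith
    · have : {x | 0 ≤ ℓ x} = {x | -(‖z‖ ^ 2 - R ^ 2 - ‖z'‖ ^ 2 + R' ^ 2) / 2 ≤
          inner ℝ (z' - z) x} := by
        ext x
        simp only [hℓ, mem_ofPred_eq]
        constructor <;> intro h <;> linarith
      rw [this]
      exact convex_halfSpace_ge (innerₛₗ ℝ (z' - z)).isLinear _
  have hzz : z' - z ≠ 0 := by
    intro h
    have hz2 : z' = z := sub_eq_zero.1 h
    subst hz2
    obtain ⟨p, hp⟩ := Finset.card_pos.1 (by omega : 0 < t.card)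
    obtain ⟨p', hp'⟩ := Finset.card_pos.1 (by omega : 0 < t'.card)
    have e1 : R' ≤ R := by
      rw [← hzt p hp]
      exact hz' p (htP hp)
    have e2 : R ≤ R' := by
      rw [← hzt' p' hp']
      exact hz p' (htP' hp')
    have e3 : R = R' := le_antisymm e2 e1
    subst e3
    have h3 := hP z' R (t ∪ t') (Finset.union_subset htP htP') (by
      intro q hq
      rcases Finset.mem_union.1 hq with hq | hq
      · exact hzt q hq
      · exact hzt' q hq)
    have h4 : t = t ∪ t' := Finset.eq_of_subset_of_card_le Finset.subset_union_left (by omega)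
    have h5 : t' = t ∪ t' := Finset.eq_of_subset_of_card_le Finset.subset_union_right (by omega)
    exact hne (h4.trans h5.symm)
  refine measure_mono_null ?_ (hyperplane_null hzz
    (-(‖z‖ ^ 2 - R ^ 2 - ‖z'‖ ^ 2 + R' ^ 2) / 2))
  rintro x ⟨hx1, hx2⟩
  have e1 : ℓ x ≤ 0 := h1 hx1
  have e2 : 0 ≤ ℓ x := h2 hx2
  simp only [hℓ] at e1 e2
  show inner ℝ (z' - z) x = _
  linarith


/-- A circle through `a`, `b`, `c` (empty if there is none). -/
noncomputable def circ (a b c : E) : Set E := by
  classical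
  exact if h : ∃ s : E × ℝ, dist a s.1 = s.2 ∧ dist b s.1 = s.2 ∧ dist c s.1 = s.2 then
    Metric.sphere h.choose.1 h.choose.2 else ∅

lemma volume_circ (a b c : E) : volume (circ a b c) = 0 := by
  unfold circ
  split_ifs with h
  · exact Measure.addHaar_sphere _ _ _
  · exact measure_empty

lemma mem_circ {a b c : E} (hab : a ≠ b) (hac : a ≠ c) (hbc : b ≠ c) {z : E} {R : ℝ}
    (ha : dist a z = R) (hb : dist b z = R) (hc : dist c z = R) {p : E} (hp : dist p z = R) :
    p ∈ circ a b c := by
  have h : ∃ s : E × ℝ, dist a s.1 = s.2 ∧ dist b s.1 = s.2 ∧ dist c s.1 = s.2 :=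
    ⟨(z, R), ha, hb, hc⟩
  unfold circ
  rw [dif_pos h]
  obtain ⟨h1, h2, h3⟩ := h.choose_spec
  set s := h.choose with hs
  have hs12 : (⟨s.1, s.2⟩ : EuclideanGeometry.Sphere E) = ⟨z, R⟩ := by
    by_contra hne
    rcases EuclideanGeometry.eq_of_mem_sphere_of_mem_sphere_of_finrank_eq_two
      (finrank_euclideanSpace_fin (𝕜 := ℝ) (n := 2)) hne hab
      (p := c) (EuclideanGeometry.mem_sphere.2 h1) (EuclideanGeometry.mem_sphere.2 h2)
      (EuclideanGeometry.mem_sphere.2 h3) (EuclideanGeometry.mem_sphere.2 ha)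
      (EuclideanGeometry.mem_sphere.2 hb) (EuclideanGeometry.mem_sphere.2 hc) with h4 | h4
    · exact hac h4.symm
    · exact hbc h4.symm
  rw [EuclideanGeometry.Sphere.mk.injEq] at hs12
  rw [Metric.mem_sphere, hs12.1, hs12.2]
  exact hp

lemma exists_generic (Q : Finset E) {η : ℝ} (hη : 0 < η) :
    ∃ P : Finset E, Generic P ∧ (∀ q ∈ Q, ∃ p ∈ P, dist p q < η) ∧
      (∀ p ∈ P, ∃ q ∈ Q, dist p q < η) := by
  classical
  induction Q using Finset.induction_on with
  | empty =>
    refine ⟨∅, ?_, by simp, by simp⟩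
    intro z R t ht _
    rw [Finset.subset_empty.1 ht]
    simp
  | insert q Q hq ih =>
    obtain ⟨P, hP, h1, h2⟩ := ih
    set B : Set E := ⋃ a ∈ P, ⋃ b ∈ P, ⋃ c ∈ P, circ a b c with hB
    have hB0 : volume B = 0 := by
      refine (measure_biUnion_null_iff P.countable_toSet).2 fun a _ => ?_
      refine (measure_biUnion_null_iff P.countable_toSet).2 fun b _ => ?_
      exact (measure_biUnion_null_iff P.countable_toSet).2 fun c _ => volume_circ a b c
    have hex : ∃ p ∈ Metric.ball q η, p ∉ B := by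
      by_contra hcon
      push Not at hcon
      have h3 : volume (Metric.ball q η) ≤ volume B := measure_mono hcon
      rw [hB0] at h3
      exact absurd h3 (not_le.2 (Metric.measure_ball_pos volume q hη))
    obtain ⟨p, hpq, hpB⟩ := hex
    refine ⟨insert p P, ?_, ?_, ?_⟩
    · intro z R t ht hzR
      by_cases hpt : p ∈ t
      · have h3 : t.erase p ⊆ P := by
          intro x hx
          rw [Finset.mem_erase] at hx
          rcases Finset.mem_insert.1 (ht hx.2) with h | h
          · exact absurd h hx.1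
          · exact h
        have h4 := hP z R (t.erase p) h3 fun x hx => hzR x (Finset.mem_of_mem_erase hx)
        have h5 := Finset.card_erase_add_one hpt
        by_contra hcon
        have h6 : (t.erase p).card = 3 := by omega
        obtain ⟨a, b, c, hab, hac, hbc, habc⟩ := Finset.card_eq_three.1 h6
        have ha : a ∈ t.erase p := by rw [habc]; simp
        have hb : b ∈ t.erase p := by rw [habc]; simp
        have hc : c ∈ t.erase p := by rw [habc]; simp
        apply hpB
        rw [hB]
        simp only [mem_iUnion, exists_prop]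
        exact ⟨a, h3 ha, b, h3 hb, c, h3 hc, mem_circ hab hac hbc
          (hzR a (Finset.mem_of_mem_erase ha)) (hzR b (Finset.mem_of_mem_erase hb))
          (hzR c (Finset.mem_of_mem_erase hc)) (hzR p hpt)⟩
      · have h3 : t ⊆ P := by
          intro x hx
          rcases Finset.mem_insert.1 (ht hx) with h | h
          · exact absurd (h ▸ hx) hpt
          · exact h
        exact hP z R t h3 hzR
    · intro x hx
      rcases Finset.mem_insert.1 hx with h | h
      · subst h
        exact ⟨p, Finset.mem_insert_self _ _, hpq⟩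
      · obtain ⟨y, hy, hyx⟩ := h1 x h
        exact ⟨y, Finset.mem_insert_of_mem hy, hyx⟩
    · intro x hx
      rcases Finset.mem_insert.1 hx with h | h
      · subst h
        exact ⟨q, Finset.mem_insert_self _ _, hpq⟩
      · obtain ⟨y, hy, hyx⟩ := h2 x h
        exact ⟨y, Finset.mem_insert_of_mem hy, hyx⟩


lemma vol_diff_homothety {T : Set E} (hT : IsCompact T) (hc : Convex ℝ T) {v : E} (hv : v ∈ T)
    {t : ℝ} (ht0 : 0 ≤ t) (ht1 : t ≤ 1) :
    volume.real (T \ (AffineMap.homothety v (1 - t) '' T)) ≤ 2 * t * volume.real T := by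
  have h1 : AffineMap.homothety v (1 - t) '' T ⊆ T := by
    rintro _ ⟨y, hy, rfl⟩
    rw [AffineMap.homothety_apply, vsub_eq_sub, vadd_eq_add]
    have := hc hv hy ht0 (by linarith : 0 ≤ 1 - t) (by ring)
    convert this using 1
    module
  have hTi : IsCompact (AffineMap.homothety v (1 - t) '' T) :=
    hT.image (AffineMap.homothety_continuous v (1 - t))
  have h2 : volume.real (AffineMap.homothety v (1 - t) '' T) = (1 - t) ^ 2 * volume.real T := by
    rw [measureReal_def, Measure.addHaar_image_homothety, finrank_euclideanSpace_fin,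
      ENNReal.toReal_mul, ENNReal.toReal_ofReal (abs_nonneg _), abs_of_nonneg (by positivity),
      measureReal_def]
  rw [measureReal_sdiff h1 hTi.measurableSet hT.measure_lt_top.ne, h2]
  have : 0 ≤ volume.real T := measureReal_nonneg
  nlinarith [mul_nonneg (mul_nonneg ht0 ht0) this]

lemma strong_convex {z v y : E} {R t : ℝ} (ht0 : 0 ≤ t) (ht1 : t ≤ 1) (hv : dist v z = R)
    (hy : dist y z ≤ R) {x : E} (hx : x = v + (1 - t) • (y - v)) :
    t * dist x v ^ 2 ≤ R ^ 2 - dist x z ^ 2 := by
  subst hx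
  have hR : 0 ≤ R := hv ▸ dist_nonneg
  have hy2 : dist y z ^ 2 ≤ R ^ 2 := pow_le_pow_left₀ dist_nonneg hy 2
  have hv2 : dist v z ^ 2 = R ^ 2 := by rw [hv]
  rw [dist_eq_norm, norm_sq_E] at hy2 hv2
  rw [dist_eq_norm, dist_eq_norm, norm_sq_E, norm_sq_E]
  simp only [PiLp.sub_apply, PiLp.add_apply, PiLp.smul_apply, smul_eq_mul] at *
  nlinarith [mul_nonneg (mul_nonneg (mul_nonneg ht0 ht0) (by linarith : 0 ≤ 1 - t))
    (by positivity : 0 ≤ (y 0 - v 0) ^ 2 + (y 1 - v 1) ^ 2),
    mul_le_mul_of_nonneg_left hy2 (by linarith : 0 ≤ 1 - t)]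

/-- Points of a set `K` that avoids the inner part of the circumscribed disc take a small
proportion of the triangle. -/
lemma vol_inter_le {a b c z : E} {R e : ℝ} (he : 0 < e) (hR : 0 < R)
    (ha : dist a z = R) (hb : dist b z = R) (hc : dist c z = R) {K : Set E}
    (hK : ∀ x ∈ K, x ∈ tri a b c → R ^ 2 - dist x z ^ 2 < 2 * R * e) :
    Real.sqrt (SS a b c) / 3 * volume.real (tri a b c ∩ K) ≤
      7 * Real.sqrt (R * e) * volume.real (tri a b c) := by
  set T := tri a b c with hT
  have hTc : IsCompact T := tri_compact a b c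
  have hconv : Convex ℝ T := convex_convexHull ℝ _
  have haT : a ∈ T := subset_convexHull ℝ _ (by simp)
  have hbT : b ∈ T := subset_convexHull ℝ _ (by simp)
  have hcT : c ∈ T := subset_convexHull ℝ _ (by simp)
  have hTz : ∀ y ∈ T, dist y z ≤ R := by
    have : T ⊆ Metric.closedBall z R := by
      apply convexHull_min _ (convex_closedBall z R)
      intro y hy
      simp only [mem_insert_iff, mem_singleton_iff] at hy
      rw [Metric.mem_closedBall]
      rcases hy with rfl | rfl | rfl
      · exact ha.le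
      · exact hb.le
      · exact hc.le
    exact fun y hy => this hy
  have hpair : ∃ v w : E, v ∈ T ∧ w ∈ T ∧ dist v z = R ∧ dist w z = R ∧
      SS a b c ≤ 3 * dist v w ^ 2 := by
    by_cases h1 : SS a b c ≤ 3 * dist b a ^ 2
    · exact ⟨b, a, hbT, haT, hb, ha, h1⟩
    by_cases h2 : SS a b c ≤ 3 * dist c b ^ 2
    · exact ⟨c, b, hcT, hbT, hc, hb, h2⟩
    by_cases h3 : SS a b c ≤ 3 * dist a c ^ 2
    · exact ⟨a, c, haT, hcT, ha, hc, h3⟩
    exfalso
    rw [dist_eq_norm] at h1 h2 h3
    rw [SS] at h1 h2 h3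
    linarith
  obtain ⟨v, w, hv, hw, hvz, hwz, hS⟩ := hpair
  have hS0 : 0 ≤ SS a b c := by
    rw [SS]
    positivity
  have hV : 0 ≤ volume.real T := measureReal_nonneg
  set L := dist v w with hL
  set M := Real.sqrt (SS a b c) / 3 with hM
  have hM0 : 0 ≤ M := by positivity
  have hMsq : M ^ 2 ≤ L ^ 2 / 3 := by
    rw [hM, div_pow, Real.sq_sqrt hS0]
    linarith
  have hRe : 0 < R * e := by positivity
  have hsq : Real.sqrt (R * e) ^ 2 = R * e := Real.sq_sqrt hRe.le
  have hsq0 : 0 ≤ Real.sqrt (R * e) := Real.sqrt_nonneg _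
  by_cases ht : L ^ 2 ≤ 8 * (R * e)
  · have h1 : M ≤ 7 * Real.sqrt (R * e) := by
      apply le_of_sq_le_sq _ (by positivity)
      nlinarith
    have h2 : volume.real (T ∩ K) ≤ volume.real T :=
      measureReal_mono inter_subset_left hTc.measure_lt_top.ne
    exact mul_le_mul h1 h2 measureReal_nonneg (by positivity)
  · push Not at ht
    have hL2 : 0 < L ^ 2 := by linarith
    set t := 8 * (R * e) / L ^ 2 with htd
    have ht0 : 0 ≤ t := by positivity
    have ht1 : t ≤ 1 := by
      rw [htd, div_le_one hL2]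
      exact ht.le
    have htL : t * L ^ 2 = 8 * (R * e) := by
      rw [htd, div_mul_cancel₀ _ hL2.ne']
    have hsub : T ∩ K ⊆ (T \ (AffineMap.homothety v (1 - t) '' T)) ∪
        (T \ (AffineMap.homothety w (1 - t) '' T)) := by
      rintro x ⟨hxT, hxK⟩
      by_contra hcon
      simp only [mem_union, Set.mem_sdiff, not_or, not_and, not_not] at hcon
      obtain ⟨y1, hy1, hx1⟩ := hcon.1 hxT
      obtain ⟨y2, hy2, hx2⟩ := hcon.2 hxT
      rw [AffineMap.homothety_apply, vsub_eq_sub, vadd_eq_add, add_comm] at hx1 hx2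
      have e1 := strong_convex ht0 ht1 hvz (hTz y1 hy1) hx1.symm
      have e2 := strong_convex ht0 ht1 hwz (hTz y2 hy2) hx2.symm
      have e3 := hK x hxK hxT
      have e4 : L ≤ dist x v + dist x w := dist_triangle_left v w x
      have e5 : L ^ 2 ≤ 2 * dist x v ^ 2 + 2 * dist x w ^ 2 := by
        have := pow_le_pow_left₀ dist_nonneg e4 2
        nlinarith [sq_nonneg (dist x v - dist x w)]
      nlinarith [mul_le_mul_of_nonneg_left e5 ht0]
    have h1 : volume.real (T ∩ K) ≤ 4 * t * volume.real T := by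
      have hfin : ∀ u : Set E, volume (T \ u) ≠ ⊤ := fun u =>
        (lt_of_le_of_lt (measure_mono sdiff_subset) hTc.measure_lt_top).ne
      have h2 := measureReal_mono hsub
        ((measure_union_le _ _).trans_lt (ENNReal.add_lt_top.2
          ⟨(hfin _).lt_top, (hfin _).lt_top⟩)).ne
      have h3 := measureReal_union_le (μ := volume) (T \ (AffineMap.homothety v (1 - t) '' T))
        (T \ (AffineMap.homothety w (1 - t) '' T))
      have h4 := vol_diff_homothety hTc hconv hv ht0 ht1
      have h5 := vol_diff_homothety hTc hconv hw ht0 ht1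
      linarith
    have h2 : M * (4 * t) ≤ 7 * Real.sqrt (R * e) := by
      apply le_of_sq_le_sq _ (by positivity)
      have h3 : (M * (4 * t)) ^ 2 = 16 * t * (M ^ 2 * t) := by ring
      have h4 : M ^ 2 * t ≤ L ^ 2 / 3 * t := mul_le_mul_of_nonneg_right hMsq ht0
      have h5 : L ^ 2 / 3 * t = 8 * (R * e) / 3 := by linarith
      have h6 : M ^ 2 * t ≤ 8 * (R * e) / 3 := by linarith
      have h7 : 0 ≤ M ^ 2 * t := by positivity
      rw [h3, mul_pow, hsq]
      nlinarith
    calc M * volume.real (T ∩ K) ≤ M * (4 * t * volume.real T) :=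
          mul_le_mul_of_nonneg_left h1 hM0
      _ = M * (4 * t) * volume.real T := by ring
      _ ≤ 7 * Real.sqrt (R * e) * volume.real T := mul_le_mul_of_nonneg_right h2 hV

end Pool.Agent.MP_50360a_an
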