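import Pool.Agent.Lib.MP_50360a_an.Lower

/-!
# The supremum of the ratio
-/

open MeasureTheory Set Filter Topology Function

namespace Pool.Agent.MP_50360a_an

lemma infDist_frontier {Ω : Set E} (hΩ : IsOpen Ω) (hne : Ω ≠ univ) {x : E} (hx : x ∈ Ω) :
    Metric.infDist x (frontier Ω) = Metric.infDist x Ωᶜ := by
  obtain ⟨y, hy, hxy⟩ := exists_mem_frontier_infDist_compl_eq_dist hx hne
  apply le_antisymm
  · rw [hxy]
    exact Metric.infDist_le_dist_of_mem hy
  · refine Metric.infDist_le_infDist_of_subset ?_ ⟨y, hy⟩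
    rw [hΩ.frontier_eq]
    exact fun z hz => hz.2

lemma ne_univ_of_bounded {Ω : Set E} (hb : Bornology.IsBounded Ω) : Ω ≠ univ := by
  intro h
  rw [h] at hb
  exact NormedSpace.unbounded_univ ℝ E hb

/-- The upper bound for the ratio. -/
lemma ratio_le {Ω : Set E} (hΩ : IsOpen Ω) (hb : Bornology.IsBounded Ω) (hne : Ω.Nonempty) :
    (⨍ x in Ω, Metric.infDist x (frontier Ω)) /
      sSup ((fun x => Metric.infDist x (frontier Ω)) '' Ω) ≤ c0 := by
  have hu := ne_univ_of_bounded hb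
  have hcne : (Ωᶜ).Nonempty := nonempty_compl.2 hu
  set ρ := sSup ((fun x => Metric.infDist x (frontier Ω)) '' Ω) with hρ
  have hbdd : BddAbove ((fun x => Metric.infDist x (frontier Ω)) '' Ω) := by
    have h1 : IsCompact (closure Ω) := hb.isCompact_closure
    have h2 := (h1.image (Metric.continuous_infDist_pt (frontier Ω))).bddAbove
    exact h2.mono (image_mono subset_closure)
  have hle : ∀ x ∈ Ω, Metric.infDist x (frontier Ω) ≤ ρ := fun x hx =>
    le_csSup hbdd ⟨x, hx, rfl⟩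
  obtain ⟨x0, hx0⟩ := hne
  have hpos : 0 < ρ := by
    refine lt_of_lt_of_le ?_ (hle x0 hx0)
    rw [infDist_frontier hΩ hu hx0]
    exact (hΩ.isClosed_compl.notMem_iff_infDist_pos hcne).1 (by simpa using hx0)
  have h1 := upper hΩ hb hpos.le (fun x hx => by rw [← infDist_frontier hΩ hu hx]; exact hle x hx)
  have h2 : ∫ x in Ω, Metric.infDist x (frontier Ω) = ∫ x in Ω, Metric.infDist x Ωᶜ :=
    setIntegral_congr_fun hΩ.measurableSet fun x hx => infDist_frontier hΩ hu hx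
  have hv : 0 < volume.real Ω := by
    rw [measureReal_def]
    exact ENNReal.toReal_pos (hΩ.measure_pos volume ⟨x0, hx0⟩).ne' hb.measure_lt_top.ne
  rw [div_le_iff₀ hpos, setAverage_eq, h2, smul_eq_mul, inv_mul_le_iff₀ hv]
  linarith

lemma Om_bounded (N : ℕ) : Bornology.IsBounded (Om N) :=
  (Pg_compact N).isBounded.subset (Om_subset N)

lemma Om_nonempty (M : ℕ) : (Om (M + 2)).Nonempty := by
  refine ⟨pt (1 / 2) (1 / 2), ?_, ?_, ?_⟩
  · rw [sc_pt]
    push_cast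
    constructor
    · norm_num
    · have : (0 : ℝ) ≤ M := Nat.cast_nonneg M
      linarith
  · rw [tc_pt]
    push_cast
    constructor
    · norm_num
    · have : (0 : ℝ) ≤ M := Nat.cast_nonneg M
      linarith
  · rintro ⟨m, n, hm, -⟩
    rw [sc_pt] at hm
    have : (2 * m : ℝ) = 1 := by linarith
    have h2 : (2 * m : ℤ) = 1 := by exact_mod_cast this
    omega

lemma ratio_Om_ge (M : ℕ) : c0 * ((M : ℝ) / (M + 2)) ^ 2 ≤
    (⨍ x in Om (M + 2), Metric.infDist x (frontier (Om (M + 2)))) /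
      sSup ((fun x => Metric.infDist x (frontier (Om (M + 2)))) '' Om (M + 2)) := by
  set Ω := Om (M + 2) with hΩd
  have hΩ : IsOpen Ω := Om_open _
  have hb : Bornology.IsBounded Ω := Om_bounded _
  have hu := ne_univ_of_bounded hb
  have hcne : (Ωᶜ).Nonempty := nonempty_compl.2 hu
  obtain ⟨x0, hx0⟩ := Om_nonempty M
  set ρ := sSup ((fun x => Metric.infDist x (frontier Ω)) '' Ω) with hρ
  have hle : ∀ x ∈ Ω, Metric.infDist x (frontier Ω) ≤ 1 := fun x hx => by
    rw [infDist_frontier hΩ hu hx]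
    exact infDist_le_one _ x
  have hρ1 : ρ ≤ 1 := by
    refine csSup_le (Set.Nonempty.image _ ⟨x0, hx0⟩) ?_
    rintro _ ⟨x, hx, rfl⟩
    exact hle x hx
  have hbdd : BddAbove ((fun x => Metric.infDist x (frontier Ω)) '' Ω) := by
    refine ⟨1, ?_⟩
    rintro _ ⟨x, hx, rfl⟩
    exact hle x hx
  have hpos : 0 < ρ := by
    refine lt_of_lt_of_le ?_ (le_csSup hbdd (mem_image_of_mem _ hx0))
    rw [infDist_frontier hΩ hu hx0]
    exact (hΩ.isClosed_compl.notMem_iff_infDist_pos hcne).1 (by simpa using hx0)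
  have h2 : ∫ x in Ω, Metric.infDist x (frontier Ω) = ∫ x in Ω, Metric.infDist x Ωᶜ :=
    setIntegral_congr_fun hΩ.measurableSet fun x hx => infDist_frontier hΩ hu hx
  have hv : 0 < volume.real Ω := by
    rw [measureReal_def]
    exact ENNReal.toReal_pos (hΩ.measure_pos volume ⟨x0, hx0⟩).ne' hb.measure_lt_top.ne
  have hv2 : volume.real Ω ≤ 3 * Real.sqrt 3 / 2 * ((M : ℝ) + 2) ^ 2 := by
    have := measureReal_mono (μ := volume) (Om_subset (M + 2)) (Pg_compact (M + 2)).measure_lt_top.ne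
    rw [volume_Pg] at this
    push_cast at this
    exact this
  have h3 := lower_integral M
  have h4 : c0 * ((M : ℝ) / (M + 2)) ^ 2 ≤ ⨍ x in Ω, Metric.infDist x (frontier Ω) := by
    rw [setAverage_eq, h2, smul_eq_mul, ← div_eq_inv_mul, le_div_iff₀ hv]
    have hM : (0 : ℝ) < (M : ℝ) + 2 := by positivity
    have hcpos : 0 ≤ c0 * ((M : ℝ) / (M + 2)) ^ 2 := mul_nonneg c0_pos.le (by positivity)
    calc c0 * ((M : ℝ) / (M + 2)) ^ 2 * volume.real Ω
        ≤ c0 * ((M : ℝ) / (M + 2)) ^ 2 * (3 * Real.sqrt 3 / 2 * ((M : ℝ) + 2) ^ 2) :=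
          mul_le_mul_of_nonneg_left hv2 hcpos
      _ = 3 * Real.sqrt 3 / 2 * c0 * (M : ℝ) ^ 2 := by
          field_simp
      _ ≤ _ := h3
  have h5 : 0 ≤ ⨍ x in Ω, Metric.infDist x (frontier Ω) :=
    le_trans (mul_nonneg c0_pos.le (by positivity)) h4
  rw [le_div_iff₀ hpos]
  calc c0 * ((M : ℝ) / (M + 2)) ^ 2 * ρ ≤ c0 * ((M : ℝ) / (M + 2)) ^ 2 * 1 :=
        mul_le_mul_of_nonneg_left hρ1 (mul_nonneg c0_pos.le (by positivity))
    _ ≤ _ := by rw [mul_one]; exact h4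

theorem isLUB_ratio :
    IsLUB {F : ℝ | ∃ Ω : Set (EuclideanSpace ℝ (Fin 2)), IsOpen Ω ∧ Bornology.IsBounded Ω ∧
      Ω.Nonempty ∧ F = (⨍ x in Ω, Metric.infDist x (frontier Ω)) /
        sSup ((fun x => Metric.infDist x (frontier Ω)) '' Ω)} (1 / 3 + Real.log 3 / 4) := by
  constructor
  · rintro _ ⟨Ω, hΩ, hb, hne, rfl⟩
    exact ratio_le hΩ hb hne
  · intro b hb
    have h1 : ∀ M : ℕ, c0 * ((M : ℝ) / (M + 2)) ^ 2 ≤ b := fun M =>
      (ratio_Om_ge M).trans (hb ⟨_, Om_open _, Om_bounded _, Om_nonempty M, rfl⟩)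
    have h2 : Tendsto (fun M : ℕ => (M : ℝ) / (M + 2)) atTop (𝓝 1) := by
      simpa using tendsto_natCast_div_add_atTop (𝕜 := ℝ) 2
    have h3 : Tendsto (fun M : ℕ => c0 * ((M : ℝ) / (M + 2)) ^ 2) atTop (𝓝 (c0 * 1 ^ 2)) :=
      (h2.pow 2).const_mul c0
    have h4 := le_of_tendsto' h3 h1
    simpa [c0] using h4

end Pool.Agent.MP_50360a_an
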