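import Pool.Agent.Lib.MP_50360a_an.Upper

/-!
# The lower bound: parallelograms with the points of a hexagonal lattice removed
-/

open MeasureTheory Set Filter Topology Function

namespace Pool.Agent.MP_50360a_an

/-- The first basis vector of the lattice. -/
noncomputable def a1 : E := !₂[Real.sqrt 3, 0]

/-- The second basis vector of the lattice. -/
noncomputable def a2 : E := !₂[Real.sqrt 3 / 2, 3 / 2]

/-- The point with lattice coordinates `s`, `t`. -/
noncomputable def pt (s t : ℝ) : E := s • a1 + t • a2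

/-- The first lattice coordinate. -/
noncomputable def sc (x : E) : ℝ := x 0 / Real.sqrt 3 - x 1 / 3

/-- The second lattice coordinate. -/
noncomputable def tc (x : E) : ℝ := 2 / 3 * x 1

lemma sqrt3_pos : 0 < Real.sqrt 3 := Real.sqrt_pos.2 (by norm_num)

lemma sqrt3_sq : Real.sqrt 3 ^ 2 = 3 := Real.sq_sqrt (by norm_num)

lemma pt_zero (s t : ℝ) : pt s t 0 = Real.sqrt 3 * (s + t / 2) := by
  simp [pt, a1, a2]
  ring

lemma pt_one (s t : ℝ) : pt s t 1 = 3 / 2 * t := by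
  simp [pt, a1, a2]
  ring

lemma sc_pt (s t : ℝ) : sc (pt s t) = s := by
  rw [sc, pt_zero, pt_one, mul_div_cancel_left₀ _ sqrt3_pos.ne']
  ring

lemma tc_pt (s t : ℝ) : tc (pt s t) = t := by
  rw [tc, pt_one]
  ring

lemma pt_sc_tc (x : E) : pt (sc x) (tc x) = x := by
  apply ext2
  · rw [pt_zero, sc, tc]
    field_simp
    ring
  · rw [pt_one, tc]
    ring

lemma sc_continuous : Continuous sc := by
  unfold sc
  fun_prop

lemma tc_continuous : Continuous tc := by
  unfold tc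
  fun_prop

lemma norm_sq_pt_sub (s t s' t' : ℝ) : ‖pt s t - pt s' t'‖ ^ 2 =
    3 * ((s - s') ^ 2 + (s - s') * (t - t') + (t - t') ^ 2) := by
  rw [norm_sq_E, PiLp.sub_apply, PiLp.sub_apply, pt_zero, pt_one, pt_zero, pt_one]
  nlinarith [sqrt3_sq]

/-- Three points forming a fundamental triangle of the lattice. -/
structure Unit3 (p q r : E) : Prop where
  h1 : ‖q - p‖ ^ 2 = 3
  h2 : ‖r - p‖ ^ 2 = 3
  h3 : inner ℝ (q - p) (r - p) = (3 / 2 : ℝ)
  h4 : ∀ m n : ℤ, ∃ i j : ℤ, pt m n = p + (i : ℝ) • (q - p) + (j : ℝ) • (r - p)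

lemma Unit3.swap {p q r : E} (h : Unit3 p q r) : Unit3 p r q where
  h1 := h.h2
  h2 := h.h1
  h3 := by rw [real_inner_comm]; exact h.h3
  h4 := fun m n => by
    obtain ⟨i, j, hij⟩ := h.h4 m n
    exact ⟨j, i, by rw [hij]; abel⟩

lemma Unit3.rot {p q r : E} (h : Unit3 p q r) : Unit3 q r p where
  h1 := by
    rw [show r - q = (r - p) - (q - p) by abel, norm_sub_sq_real, h.h1, h.h2, real_inner_comm, h.h3]
    norm_num
  h2 := by
    rw [← norm_neg, neg_sub]
    exact h.h1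
  h3 := by
    rw [show r - q = (r - p) - (q - p) by abel, show p - q = -(q - p) by abel, inner_neg_right,
      inner_sub_left, real_inner_self_eq_norm_sq, h.h1, real_inner_comm, h.h3]
    norm_num
  h4 := fun m n => by
    obtain ⟨i, j, hij⟩ := h.h4 m n
    refine ⟨j, 1 - i - j, ?_⟩
    rw [hij]
    push_cast
    module

lemma Unit3.mem_cell {p q r : E} (_ : Unit3 p q r) {x : E} (hx : x ∈ cell p q r) :
    ∃ σ τ : ℝ, 0 ≤ τ ∧ τ ≤ σ ∧ 2 * σ + τ ≤ 1 ∧ x = p + σ • (q - p) + τ • (r - p) := by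
  rw [cell, mem_tri] at hx
  obtain ⟨α, β, γ, hα, hβ, hγ, hs, rfl⟩ := hx
  refine ⟨β / 2 + γ / 3, γ / 3, by linarith, by linarith, by linarith, ?_⟩
  have : α = 1 - β - γ := by linarith
  subst this
  module

lemma int_quad (i j : ℤ) {A B : ℝ} (hA0 : 0 ≤ A) (hA1 : A ≤ 1) (hB0 : 0 ≤ B) (hB1 : B ≤ 1) :
    i * A + j * B ≤ (i : ℝ) ^ 2 + i * j + j ^ 2 := by
  have key : ∀ k : ℤ, (k : ℝ) ≤ (k : ℝ) ^ 2 ∧ -(k : ℝ) ≤ (k : ℝ) ^ 2 := by
    intro k
    constructor
    · have : k ≤ k ^ 2 := by nlinarith [sq_nonneg k, Int.le_self_sq k]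
      exact_mod_cast this
    · have : -k ≤ k ^ 2 := by
        have := Int.le_self_sq (-k)
        simpa using this
      exact_mod_cast this
  have hi := key i
  have hj := key j
  have hij := key (i + j)
  push_cast at hij
  -- the expression is affine in `A` and in `B`, check the four corners
  have c00 : 0 ≤ (i : ℝ) ^ 2 + i * j + j ^ 2 := by nlinarith [sq_nonneg ((i : ℝ) + j)]
  have c10 : (i : ℝ) ≤ (i : ℝ) ^ 2 + i * j + j ^ 2 := by nlinarith
  have c01 : (j : ℝ) ≤ (i : ℝ) ^ 2 + i * j + j ^ 2 := by nlinarith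
  have c11 : (i : ℝ) + j ≤ (i : ℝ) ^ 2 + i * j + j ^ 2 := by nlinarith
  set F := (i : ℝ) ^ 2 + i * j + j ^ 2 with hF
  have hA1' : 0 ≤ 1 - A := by linarith
  have hB1' : 0 ≤ 1 - B := by linarith
  nlinarith [mul_nonneg (mul_nonneg hA1' hB1') c00, mul_le_mul_of_nonneg_left c10
    (mul_nonneg hA0 hB1'), mul_le_mul_of_nonneg_left c01 (mul_nonneg hA1' hB0),
    mul_le_mul_of_nonneg_left c11 (mul_nonneg hA0 hB0)]

lemma Unit3.norm_sq {p q r : E} (h : Unit3 p q r) (σ τ : ℝ) :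
    ‖σ • (q - p) + τ • (r - p)‖ ^ 2 = 3 * (σ ^ 2 + σ * τ + τ ^ 2) := by
  rw [norm_add_sq_real, norm_smul, norm_smul, mul_pow, mul_pow, h.h1, h.h2,
    real_inner_smul_left, real_inner_smul_right, h.h3, Real.norm_eq_abs, Real.norm_eq_abs,
    sq_abs, sq_abs]
  ring

lemma Unit3.near {p q r : E} (h : Unit3 p q r) {x : E} (hx : x ∈ cell p q r) (m n : ℤ) :
    ‖x - p‖ ≤ ‖x - pt m n‖ := by
  obtain ⟨σ, τ, h0, h1, h2, rfl⟩ := h.mem_cell hx
  obtain ⟨i, j, hij⟩ := h.h4 m n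
  rw [hij]
  rw [← pow_le_pow_iff_left₀ (norm_nonneg _) (norm_nonneg _) two_ne_zero]
  rw [show p + σ • (q - p) + τ • (r - p) - p = σ • (q - p) + τ • (r - p) by abel,
    show p + σ • (q - p) + τ • (r - p) - (p + (i : ℝ) • (q - p) + (j : ℝ) • (r - p)) =
      (σ - i) • (q - p) + (τ - j) • (r - p) by module, h.norm_sq, h.norm_sq]
  have := int_quad i j (A := 2 * σ + τ) (B := σ + 2 * τ) (by linarith) h2 (by linarith)
    (by linarith)
  nlinarith

lemma Unit3.norm_le_one {p q r : E} (h : Unit3 p q r) {x : E} (hx : x ∈ cell p q r) :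
    ‖x - p‖ ≤ 1 := by
  obtain ⟨σ, τ, h0, h1, h2, rfl⟩ := h.mem_cell hx
  rw [← pow_le_pow_iff_left₀ (norm_nonneg _) zero_le_one two_ne_zero]
  rw [show p + σ • (q - p) + τ • (r - p) - p = σ • (q - p) + τ • (r - p) by abel, h.norm_sq]
  nlinarith [mul_nonneg h0 (by linarith : 0 ≤ σ - τ)]

lemma Unit3.det_sq {p q r : E} (h : Unit3 p q r) :
    det2 (q - p) (r - p) ^ 2 = 27 / 4 := by
  have h1 := h.h1
  have h2 := h.h2
  have h3 := h.h3
  rw [norm_sq_E] at h1 h2
  have h4 : inner ℝ (q - p) (r - p) = (q - p) 0 * (r - p) 0 + (q - p) 1 * (r - p) 1 := by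
    rw [EuclideanSpace.inner_eq_star_dotProduct]
    simp [dotProduct, Fin.sum_univ_two]
    ring
  rw [h4] at h3
  rw [det2]
  have : ((q - p) 0 * (r - p) 1 - (q - p) 1 * (r - p) 0) ^ 2 =
      ((q - p) 0 ^ 2 + (q - p) 1 ^ 2) * ((r - p) 0 ^ 2 + (r - p) 1 ^ 2) -
        ((q - p) 0 * (r - p) 0 + (q - p) 1 * (r - p) 1) ^ 2 := by ring
  rw [this, h1, h2, h3]
  norm_num

lemma Unit3.det_ne {p q r : E} (h : Unit3 p q r) : det2 (q - p) (r - p) ≠ 0 := by
  intro h0
  have := h.det_sq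
  rw [h0] at this
  norm_num at this

lemma Unit3.det_abs {p q r : E} (h : Unit3 p q r) :
    |det2 (q - p) (r - p)| = 3 * Real.sqrt 3 / 2 := by
  have h1 : (3 * Real.sqrt 3 / 2) ^ 2 = 27 / 4 := by
    rw [div_pow, mul_pow, sqrt3_sq]
    norm_num
  have h2 := h.det_sq
  rw [← h1, ← sq_abs] at h2
  exact (pow_left_inj₀ (abs_nonneg _) (by positivity) two_ne_zero).1 h2

lemma Unit3.norm_yv {p q r : E} (h : Unit3 p q r) (k : ℝ) :
    ‖yv p q r k‖ = 1 / 2 * Real.sqrt (3 + k ^ 2) := by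
  have h1 : yv p q r k = (1 / 2 - k / 6) • (q - p) + (k / 3) • (r - p) := by
    rw [yv]
    module
  rw [← pow_left_inj₀ (norm_nonneg _) (by positivity) two_ne_zero, h1, h.norm_sq, mul_pow,
    Real.sq_sqrt (by positivity)]
  ring

lemma Unit3.moment {p q r : E} (h : Unit3 p q r) :
    ∫ x in cell p q r, ‖x - p‖ = Real.sqrt 3 / 8 * c0 := by
  rw [moment_cell h.det_ne, h.det_abs]
  simp only [h.norm_yv]
  rw [intervalIntegral.integral_const_mul, integral_sqrt, c0]
  ring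

lemma Unit3.volume_cell {p q r : E} (h : Unit3 p q r) :
    volume.real (cell p q r) = Real.sqrt 3 / 8 := by
  rw [Pool.Agent.MP_50360a_an.volume_cell h.det_ne, h.det_abs]
  ring

lemma Unit3.volume_tri {p q r : E} (h : Unit3 p q r) :
    volume.real (tri p q r) = 3 * Real.sqrt 3 / 4 := by
  rw [volume_tri' h.det_ne, h.det_abs]
  ring

/-- Lower bound for the integral over a fundamental triangle. -/
lemma Unit3.integral_ge {p q r : E} (h : Unit3 p q r) {g : E → ℝ} (hg : Continuous g)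
    (hg1 : ∀ x, g x ≤ 1) (hgp : ∀ x ∈ cell p q r ∪ cell p r q, ‖x - p‖ ≤ g x)
    (hgq : ∀ x ∈ cell q r p ∪ cell q p r, ‖x - q‖ ≤ g x)
    (hgr : ∀ x ∈ cell r p q ∪ cell r q p, ‖x - r‖ ≤ g x) :
    3 * Real.sqrt 3 / 4 * c0 ≤ ∫ x in tri p q r, g x := by
  have h1 := setIntegral_le_sum (tri_subset_cells p q r).eventuallyLE (fun x => 1 - g x)
    (fun x => by have := hg1 x; simp only [Pi.zero_apply]; linarith)
    (fun i => (by fun_prop : Continuous fun x => 1 - g x).continuousOn.integrableOn_compact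
      (cells_compact p q r i))
  have h3 : (∑ i, ∫ x in cells p q r i, (1 - g x)) = (∫ x in cell p q r, (1 - g x)) +
      (∫ x in cell q p r, (1 - g x)) + (∫ x in cell q r p, (1 - g x)) +
      (∫ x in cell r q p, (1 - g x)) +
      (∫ x in cell r p q, (1 - g x)) + (∫ x in cell p r q, (1 - g x)) := by
    simp only [Fin.sum_univ_six]
    rfl
  rw [h3] at h1
  have hcell : ∀ {u v w : E}, Unit3 u v w → (∀ x ∈ cell u v w, ‖x - u‖ ≤ g x) →
      ∫ x in cell u v w, (1 - g x) ≤ Real.sqrt 3 / 8 - Real.sqrt 3 / 8 * c0 := by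
    intro u v w huvw hle
    have hc : IsCompact (cell u v w) := tri_compact _ _ _
    have hi1 : IntegrableOn (fun _ : E => (1 : ℝ)) (cell u v w) :=
      integrableOn_const hc.measure_lt_top.ne enorm_ne_top
    rw [integral_sub hi1 (cell_integrable _ _ _ hg), setIntegral_const, smul_eq_mul, mul_one,
      huvw.volume_cell, ← huvw.moment]
    have : ∫ x in cell u v w, ‖x - u‖ ≤ ∫ x in cell u v w, g x :=
      setIntegral_mono_on (cell_integrable _ _ _ (by fun_prop)) (cell_integrable _ _ _ hg)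
        hc.measurableSet hle
    linarith
  have hT : IsCompact (tri p q r) := tri_compact p q r
  have h4 : ∫ x in tri p q r, (1 - g x) = 3 * Real.sqrt 3 / 4 - ∫ x in tri p q r, g x := by
    have hi1 : IntegrableOn (fun _ : E => (1 : ℝ)) (tri p q r) :=
      integrableOn_const hT.measure_lt_top.ne enorm_ne_top
    rw [integral_sub hi1 (hg.continuousOn.integrableOn_compact hT), setIntegral_const, smul_eq_mul,
      mul_one, h.volume_tri]
  rw [h4] at h1
  have e0 := hcell h fun x hx => hgp x (Or.inl hx)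
  have e1 := hcell h.rot.swap fun x hx => hgq x (Or.inr hx)
  have e2 := hcell h.rot fun x hx => hgq x (Or.inl hx)
  have e3 := hcell h.rot.rot.swap fun x hx => hgr x (Or.inr hx)
  have e4 := hcell h.rot.rot fun x hx => hgr x (Or.inl hx)
  have e5 := hcell h.swap fun x hx => hgp x (Or.inr hx)
  linarith


/-- The parallelogram spanned by `N a₁` and `N a₂` with the lattice points removed. -/
def Om (N : ℕ) : Set E :=
  {x | (0 < sc x ∧ sc x < N) ∧ (0 < tc x ∧ tc x < N) ∧ ¬ ∃ m n : ℤ, sc x = m ∧ tc x = n}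

/-- The closed parallelogram. -/
def Pg (N : ℕ) : Set E := {x | (0 ≤ sc x ∧ sc x ≤ N) ∧ (0 ≤ tc x ∧ tc x ≤ N)}

lemma Om_subset (N : ℕ) : Om N ⊆ Pg N := fun _ hx =>
  ⟨⟨hx.1.1.le, hx.1.2.le⟩, ⟨hx.2.1.1.le, hx.2.1.2.le⟩⟩

lemma Om_open (N : ℕ) : IsOpen (Om N) := by
  have h1 : IsOpen {x : E | 0 < sc x} := isOpen_lt continuous_const sc_continuous
  have h2 : IsOpen {x : E | sc x < N} := isOpen_lt sc_continuous continuous_const
  have h3 : IsOpen {x : E | 0 < tc x} := isOpen_lt continuous_const tc_continuous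
  have h4 : IsOpen {x : E | tc x < N} := isOpen_lt tc_continuous continuous_const
  have h5 : IsClosed {x : E | ∃ m n : ℤ, sc x = m ∧ tc x = n} := by
    have : {x : E | ∃ m n : ℤ, sc x = m ∧ tc x = n} =
        sc ⁻¹' (range ((↑) : ℤ → ℝ)) ∩ tc ⁻¹' (range ((↑) : ℤ → ℝ)) := by
      ext x
      constructor
      · rintro ⟨m, n, h, h'⟩
        exact ⟨⟨m, h.symm⟩, ⟨n, h'.symm⟩⟩
      · rintro ⟨⟨m, h⟩, ⟨n, h'⟩⟩
        exact ⟨m, n, h.symm, h'.symm⟩
    rw [this]
    exact (Int.isClosedEmbedding_coe_real.isClosed_range.preimage sc_continuous).inter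
      (Int.isClosedEmbedding_coe_real.isClosed_range.preimage tc_continuous)
  exact (h1.inter h2).inter ((h3.inter h4).inter h5.isOpen_compl)

lemma Pg_closed (N : ℕ) : IsClosed (Pg N) :=
  ((isClosed_le continuous_const sc_continuous).inter
    (isClosed_le sc_continuous continuous_const)).inter
    ((isClosed_le continuous_const tc_continuous).inter
    (isClosed_le tc_continuous continuous_const))

lemma pt_add (s t s' t' : ℝ) : pt s t + pt s' t' = pt (s + s') (t + t') := by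
  rw [pt, pt, pt]
  module

lemma smul_pt (c s t : ℝ) : c • pt s t = pt (c * s) (c * t) := by
  rw [pt, pt]
  module

lemma pt_sub (s t s' t' : ℝ) : pt s t - pt s' t' = pt (s - s') (t - t') := by
  rw [pt, pt, pt]
  module

lemma inner_pt (s t s' t' : ℝ) : inner ℝ (pt s t) (pt s' t') =
    3 * (s * s' + (s * t' + t * s') / 2 + t * t') := by
  have h4 : inner ℝ (pt s t) (pt s' t') = (pt s t) 0 * (pt s' t') 0 +
      (pt s t) 1 * (pt s' t') 1 := by
    rw [EuclideanSpace.inner_eq_star_dotProduct]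
    simp [dotProduct, Fin.sum_univ_two]
    ring
  rw [h4, pt_zero, pt_one, pt_zero, pt_one]
  linear_combination (s + t / 2) * (s' + t' / 2) * sqrt3_sq

lemma norm_sq_pt (s t : ℝ) : ‖pt s t‖ ^ 2 = 3 * (s ^ 2 + s * t + t ^ 2) := by
  rw [← real_inner_self_eq_norm_sq, inner_pt]
  ring

/-- The upward fundamental triangles. -/
lemma unit_up (i j : ℤ) : Unit3 (pt i j) (pt (i + 1) j) (pt i (j + 1)) where
  h1 := by rw [pt_sub, norm_sq_pt]; ring
  h2 := by rw [pt_sub, norm_sq_pt]; ring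
  h3 := by rw [pt_sub, pt_sub, inner_pt]; ring
  h4 := fun m n => by
    refine ⟨m - i, n - j, ?_⟩
    rw [pt_sub, pt_sub, smul_pt, smul_pt, pt_add, pt_add]
    push_cast
    congr 1 <;> ring

/-- The downward fundamental triangles. -/
lemma unit_down (i j : ℤ) : Unit3 (pt (i + 1) (j + 1)) (pt i (j + 1)) (pt (i + 1) j) where
  h1 := by rw [pt_sub, norm_sq_pt]; ring
  h2 := by rw [pt_sub, norm_sq_pt]; ring
  h3 := by rw [pt_sub, pt_sub, inner_pt]; ring
  h4 := fun m n => by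
    refine ⟨i + 1 - m, j + 1 - n, ?_⟩
    rw [pt_sub, pt_sub, smul_pt, smul_pt, pt_add, pt_add]
    push_cast
    congr 1 <;> ring

lemma mem_up {s t i j : ℝ} (h1 : i ≤ s) (h2 : j ≤ t) (h3 : (s - i) + (t - j) ≤ 1) :
    pt s t ∈ tri (pt i j) (pt (i + 1) j) (pt i (j + 1)) := by
  rw [mem_tri]
  refine ⟨1 - (s - i) - (t - j), s - i, t - j, by linarith, by linarith, by linarith, by ring, ?_⟩
  rw [smul_pt, smul_pt, smul_pt, pt_add, pt_add]
  congr 1 <;> ring

lemma mem_down {s t i j : ℝ} (h1 : s ≤ i + 1) (h2 : t ≤ j + 1) (h3 : 1 ≤ (s - i) + (t - j)) :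
    pt s t ∈ tri (pt (i + 1) (j + 1)) (pt i (j + 1)) (pt (i + 1) j) := by
  rw [mem_tri]
  refine ⟨(s - i) + (t - j) - 1, 1 - (s - i), 1 - (t - j), by linarith, by linarith, by linarith,
    by ring, ?_⟩
  rw [smul_pt, smul_pt, smul_pt, pt_add, pt_add]
  congr 1 <;> ring

/-- Every point is within distance one of a lattice point. -/
lemma exists_near (x : E) : ∃ m n : ℤ, ‖x - pt m n‖ ≤ 1 := by
  have key : ∀ {p q r : E}, Unit3 p q r → (∃ m n : ℤ, p = pt m n) → (∃ m n : ℤ, q = pt m n) →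
      (∃ m n : ℤ, r = pt m n) → x ∈ tri p q r → ∃ m n : ℤ, ‖x - pt m n‖ ≤ 1 := by
    rintro p q r h ⟨m, n, hp⟩ ⟨m', n', hq⟩ ⟨m'', n'', hr⟩ hx
    obtain ⟨i, hi⟩ := mem_iUnion.1 (tri_subset_cells p q r hx)
    fin_cases i
    · exact ⟨m, n, hp ▸ h.norm_le_one hi⟩
    · exact ⟨m', n', hq ▸ h.rot.swap.norm_le_one hi⟩
    · exact ⟨m', n', hq ▸ h.rot.norm_le_one hi⟩
    · exact ⟨m'', n'', hr ▸ h.rot.rot.swap.norm_le_one hi⟩
    · exact ⟨m'', n'', hr ▸ h.rot.rot.norm_le_one hi⟩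
    · exact ⟨m, n, hp ▸ h.swap.norm_le_one hi⟩
  have hs := Int.floor_le (sc x)
  have hs' := Int.lt_floor_add_one (sc x)
  have ht := Int.floor_le (tc x)
  have ht' := Int.lt_floor_add_one (tc x)
  rcases le_total ((sc x - ⌊sc x⌋) + (tc x - ⌊tc x⌋)) 1 with h | h
  · refine key (unit_up ⌊sc x⌋ ⌊tc x⌋) ⟨_, _, rfl⟩ ⟨⌊sc x⌋ + 1, ⌊tc x⌋, by push_cast; rfl⟩
      ⟨⌊sc x⌋, ⌊tc x⌋ + 1, by push_cast; rfl⟩ ?_
    have := mem_up hs ht h
    rwa [pt_sc_tc] at this
  · refine key (unit_down ⌊sc x⌋ ⌊tc x⌋) ⟨⌊sc x⌋ + 1, ⌊tc x⌋ + 1, by push_cast; rfl⟩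
      ⟨⌊sc x⌋, ⌊tc x⌋ + 1, by push_cast; rfl⟩ ⟨⌊sc x⌋ + 1, ⌊tc x⌋, by push_cast; rfl⟩ ?_
    have := mem_down hs'.le ht'.le h
    rwa [pt_sc_tc] at this

lemma lattice_not_mem (N : ℕ) (m n : ℤ) : pt m n ∉ Om N := by
  intro h
  exact h.2.2 ⟨m, n, sc_pt _ _, tc_pt _ _⟩

lemma infDist_le_one (N : ℕ) (x : E) : Metric.infDist x (Om N)ᶜ ≤ 1 := by
  obtain ⟨m, n, h⟩ := exists_near x
  refine (Metric.infDist_le_dist_of_mem (lattice_not_mem N m n)).trans ?_
  rwa [dist_eq_norm]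

lemma sc_dist (x y : E) : 3 / 2 * |sc x - sc y| ≤ dist x y := by
  rw [dist_eq_norm, ← pow_le_pow_iff_left₀ (by positivity) (norm_nonneg _) two_ne_zero, mul_pow,
    sq_abs]
  have h := norm_sq_pt_sub (sc x) (tc x) (sc y) (tc y)
  rw [pt_sc_tc, pt_sc_tc] at h
  rw [h]
  nlinarith [sq_nonneg ((sc x - sc y) / 2 + (tc x - tc y))]

lemma tc_dist (x y : E) : 3 / 2 * |tc x - tc y| ≤ dist x y := by
  rw [dist_eq_norm, ← pow_le_pow_iff_left₀ (by positivity) (norm_nonneg _) two_ne_zero, mul_pow,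
    sq_abs]
  have h := norm_sq_pt_sub (sc x) (tc x) (sc y) (tc y)
  rw [pt_sc_tc, pt_sc_tc] at h
  rw [h]
  nlinarith [sq_nonneg ((tc x - tc y) / 2 + (sc x - sc y))]

lemma le_infDist_of_inner {N : ℕ} {p q r : E} (h : Unit3 p q r) {x : E} (hx : x ∈ cell p q r)
    (h1 : 1 ≤ sc x) (h2 : sc x ≤ N - 1) (h3 : 1 ≤ tc x) (h4 : tc x ≤ N - 1) :
    ‖x - p‖ ≤ Metric.infDist x (Om N)ᶜ := by
  rw [Metric.le_infDist ⟨_, lattice_not_mem N 0 0⟩]
  intro y hy
  have hle := h.norm_le_one hx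
  have hs : ∀ {u : ℝ}, 1 ≤ |u| → 3 / 2 * |u| ≤ dist x y → ‖x - p‖ ≤ dist x y := by
    intro u h5 h6
    linarith
  by_cases hl : ∃ m n : ℤ, sc y = m ∧ tc y = n
  · obtain ⟨m, n, hm, hn⟩ := hl
    have := h.near hx m n
    rwa [← hm, ← hn, pt_sc_tc, ← dist_eq_norm x y] at this
  · by_cases c1 : 0 < sc y
    · by_cases c2 : sc y < N
      · by_cases c3 : 0 < tc y
        · by_cases c4 : tc y < N
          · exact absurd ⟨⟨c1, c2⟩, ⟨c3, c4⟩, hl⟩ hy
          · refine hs ?_ (tc_dist x y)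
            rw [abs_sub_comm]
            exact le_trans (by linarith) (le_abs_self _)
        · refine hs ?_ (tc_dist x y)
          exact le_trans (by linarith) (le_abs_self _)
      · refine hs ?_ (sc_dist x y)
        rw [abs_sub_comm]
        exact le_trans (by linarith) (le_abs_self _)
    · refine hs ?_ (sc_dist x y)
      exact le_trans (by linarith) (le_abs_self _)


lemma volume_Pg (N : ℕ) : volume.real (Pg N) = 3 * Real.sqrt 3 / 2 * (N : ℝ) ^ 2 := by
  have h1 : Pg N = lin a1 a2 '' {y : E | (0 ≤ y 0 ∧ y 0 ≤ N) ∧ (0 ≤ y 1 ∧ y 1 ≤ N)} := by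
    ext x
    constructor
    · intro hx
      refine ⟨!₂[sc x, tc x], ?_, ?_⟩
      · simpa [Pg] using hx
      · rw [lin_apply]
        have := pt_sc_tc x
        rw [pt] at this
        simpa using this
    · rintro ⟨y, hy, rfl⟩
      rw [lin_apply]
      have : y 0 • a1 + y 1 • a2 = pt (y 0) (y 1) := rfl
      rw [this]
      refine ⟨?_, ?_⟩
      · rw [sc_pt]
        exact hy.1
      · rw [tc_pt]
        exact hy.2
  have h2 : volume {y : E | (0 ≤ y 0 ∧ y 0 ≤ N) ∧ (0 ≤ y 1 ∧ y 1 ≤ (N : ℝ))} =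
      ENNReal.ofReal N * ENNReal.ofReal N := by
    rw [← eqv_mp.measure_preimage_equiv]
    have : eqv ⁻¹' {y : E | (0 ≤ y 0 ∧ y 0 ≤ N) ∧ (0 ≤ y 1 ∧ y 1 ≤ (N : ℝ))} =
        Icc 0 (N : ℝ) ×ˢ Icc 0 (N : ℝ) := by
      ext ⟨u, w⟩
      simp [eqv_apply]
      tauto
    rw [this, Measure.volume_eq_prod, Measure.prod_prod, Real.volume_Icc, sub_zero]
  have h3 : |LinearMap.det (lin a1 a2 : E →ₗ[ℝ] E)| = 3 * Real.sqrt 3 / 2 := by
    have h4 := det_lin a1 a2
    rw [ContinuousLinearMap.det] at h4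
    rw [h4]
    have : det2 a1 a2 = 3 * Real.sqrt 3 / 2 := by
      simp [det2, a1, a2]
      ring
    rw [this, abs_of_pos (by have := sqrt3_pos; positivity)]
  rw [h1, measureReal_def, Measure.addHaar_image_continuousLinearMap, h2, h3, ENNReal.toReal_mul,
    ENNReal.toReal_mul, ENNReal.toReal_ofReal (by positivity), ENNReal.toReal_ofReal (by positivity)]
  ring

/-- The upward triangles. -/
def upT (i j : ℤ) : Set E := tri (pt i j) (pt (i + 1) j) (pt i (j + 1))

/-- The downward triangles. -/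
def dnT (i j : ℤ) : Set E := tri (pt (i + 1) (j + 1)) (pt i (j + 1)) (pt (i + 1) j)

lemma tri_bounds {a b c : E} {φ : E → ℝ} (hφ : ∀ s t : ℝ, ∀ x y z : E, ∀ u : ℝ, s + t + u = 1 →
    φ (s • x + t • y + u • z) = s * φ x + t * φ y + u * φ z) {l m : ℝ}
    (ha : φ a ∈ Icc l m) (hb : φ b ∈ Icc l m) (hc : φ c ∈ Icc l m) {x : E} (hx : x ∈ tri a b c) :
    φ x ∈ Icc l m := by
  rw [mem_tri] at hx
  obtain ⟨α, β, γ, hα, hβ, hγ, hs, rfl⟩ := hx
  rw [hφ _ _ _ _ _ _ hs]
  have el : α * l + β * l + γ * l = l := by rw [← add_mul, ← add_mul, hs, one_mul]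
  have em : α * m + β * m + γ * m = m := by rw [← add_mul, ← add_mul, hs, one_mul]
  constructor
  · linarith [mul_le_mul_of_nonneg_left ha.1 hα, mul_le_mul_of_nonneg_left hb.1 hβ,
      mul_le_mul_of_nonneg_left hc.1 hγ]
  · linarith [mul_le_mul_of_nonneg_left ha.2 hα, mul_le_mul_of_nonneg_left hb.2 hβ,
      mul_le_mul_of_nonneg_left hc.2 hγ]

lemma sc_affine (s t : ℝ) (x y z : E) (u : ℝ) (_ : s + t + u = 1) :
    sc (s • x + t • y + u • z) = s * sc x + t * sc y + u * sc z := by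
  simp [sc]
  ring

lemma tc_affine (s t : ℝ) (x y z : E) (u : ℝ) (_ : s + t + u = 1) :
    tc (s • x + t • y + u • z) = s * tc x + t * tc y + u * tc z := by
  simp [tc]
  ring

lemma cell_subset_tri (a b c : E) : cell a b c ⊆ tri a b c := by
  intro x hx
  rw [cell, mem_tri] at hx
  obtain ⟨α, β, γ, hα, hβ, hγ, hs, rfl⟩ := hx
  rw [mem_tri]
  refine ⟨α + β / 2 + γ / 3, β / 2 + γ / 3, γ / 3, by positivity, by positivity, by positivity,
    by linarith, ?_⟩
  module

lemma tri_perm1 (a b c : E) : tri a b c = tri b a c := by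
  rw [tri, tri, insert_comm]

lemma tri_perm2 (a b c : E) : tri a b c = tri b c a := by
  rw [tri_perm1, tri, tri]
  congr 1
  ext x
  simp only [mem_insert_iff, mem_singleton_iff]
  tauto

lemma inner_triangle {N : ℕ} {p q r : E} (h : Unit3 p q r)
    (h1 : ∀ x ∈ tri p q r, 1 ≤ sc x ∧ sc x ≤ N - 1) (h2 : ∀ x ∈ tri p q r, 1 ≤ tc x ∧ tc x ≤ N - 1) :
    3 * Real.sqrt 3 / 4 * c0 ≤ ∫ x in tri p q r, Metric.infDist x (Om N)ᶜ := by
  have key : ∀ {u v w : E}, Unit3 u v w → tri u v w = tri p q r → ∀ x ∈ cell u v w,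
      ‖x - u‖ ≤ Metric.infDist x (Om N)ᶜ := by
    intro u v w huvw he x hx
    have hx' : x ∈ tri p q r := he ▸ cell_subset_tri u v w hx
    exact le_infDist_of_inner huvw hx (h1 x hx').1 (h1 x hx').2 (h2 x hx').1 (h2 x hx').2
  have e1 : tri q r p = tri p q r := (tri_perm2 p q r).symm
  have e2 : tri r p q = tri p q r := (tri_perm2 q r p).symm.trans e1
  have e3 : tri q p r = tri p q r := (tri_perm1 p q r).symm
  have e4 : tri r q p = tri p q r := (tri_perm1 q r p).symm.trans e1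
  have e5 : tri p r q = tri p q r := (tri_perm1 r p q).symm.trans e2
  refine h.integral_ge (Metric.continuous_infDist_pt _) (infDist_le_one N) ?_ ?_ ?_
  · rintro x (hx | hx)
    · exact key h rfl x hx
    · exact key h.swap e5 x hx
  · rintro x (hx | hx)
    · exact key h.rot e1 x hx
    · exact key h.rot.swap e3 x hx
  · rintro x (hx | hx)
    · exact key h.rot.rot e2 x hx
    · exact key h.rot.rot.swap e4 x hx

lemma upT_bounds (i j : ℤ) {x : E} (hx : x ∈ upT i j) :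
    sc x ∈ Icc (i : ℝ) (i + 1) ∧ tc x ∈ Icc (j : ℝ) (j + 1) := by
  constructor
  · apply tri_bounds sc_affine _ _ _ hx <;> rw [sc_pt] <;> constructor <;> linarith
  · apply tri_bounds tc_affine _ _ _ hx <;> rw [tc_pt] <;> constructor <;> linarith

lemma dnT_bounds (i j : ℤ) {x : E} (hx : x ∈ dnT i j) :
    sc x ∈ Icc (i : ℝ) (i + 1) ∧ tc x ∈ Icc (j : ℝ) (j + 1) := by
  constructor
  · apply tri_bounds sc_affine _ _ _ hx <;> rw [sc_pt] <;> constructor <;> linarith
  · apply tri_bounds tc_affine _ _ _ hx <;> rw [tc_pt] <;> constructor <;> linarith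

/-- Weight: one for inner indices. -/
noncomputable def wt (N k : ℕ) : ℝ := if 1 ≤ k ∧ k + 2 ≤ N then 1 else 0

lemma sum_wt (M : ℕ) : ∑ k ∈ Finset.range (M + 2), wt (M + 2) k = M := by
  rw [Finset.sum_range_succ, Finset.sum_range_succ']
  have h1 : wt (M + 2) (M + 1) = 0 := by
    rw [wt, if_neg]
    omega
  have h2 : wt (M + 2) 0 = 0 := by
    rw [wt, if_neg]
    omega
  have h3 : ∀ k ∈ Finset.range M, wt (M + 2) (k + 1) = 1 := by
    intro k hk
    rw [Finset.mem_range] at hk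
    rw [wt, if_pos]
    omega
  rw [h1, h2, Finset.sum_congr rfl h3]
  simp

lemma wt_cases (N k : ℕ) : wt N k = 0 ∨ (wt N k = 1 ∧ 1 ≤ k ∧ k + 2 ≤ N) := by
  rw [wt]
  split_ifs with h
  · exact Or.inr ⟨rfl, h⟩
  · exact Or.inl rfl

lemma up_ge (N i j : ℕ) : 3 * Real.sqrt 3 / 4 * c0 * (wt N i * wt N j) ≤
    ∫ x in upT i j, Metric.infDist x (Om N)ᶜ := by
  have h0 : 0 ≤ ∫ x in upT i j, Metric.infDist x (Om N)ᶜ :=
    setIntegral_nonneg_of_ae (Eventually.of_forall fun x => Metric.infDist_nonneg)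
  rcases wt_cases N i with h | ⟨h, hi1, hi2⟩
  · rw [h]
    simpa using h0
  rcases wt_cases N j with h' | ⟨h', hj1, hj2⟩
  · rw [h']
    simpa using h0
  rw [h, h', mul_one, mul_one]
  have hi1' : (1 : ℝ) ≤ i := by exact_mod_cast hi1
  have hi2' : (i : ℝ) + 2 ≤ N := by exact_mod_cast hi2
  have hj1' : (1 : ℝ) ≤ j := by exact_mod_cast hj1
  have hj2' : (j : ℝ) + 2 ≤ N := by exact_mod_cast hj2
  refine inner_triangle (unit_up i j) ?_ ?_
  · intro x hx
    have := (upT_bounds i j hx).1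
    simp only [Int.cast_natCast, mem_Icc] at this
    constructor <;> linarith [this.1, this.2]
  · intro x hx
    have := (upT_bounds i j hx).2
    simp only [Int.cast_natCast, mem_Icc] at this
    constructor <;> linarith [this.1, this.2]

lemma dn_ge (N i j : ℕ) : 3 * Real.sqrt 3 / 4 * c0 * (wt N i * wt N j) ≤
    ∫ x in dnT i j, Metric.infDist x (Om N)ᶜ := by
  have h0 : 0 ≤ ∫ x in dnT i j, Metric.infDist x (Om N)ᶜ :=
    setIntegral_nonneg_of_ae (Eventually.of_forall fun x => Metric.infDist_nonneg)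
  rcases wt_cases N i with h | ⟨h, hi1, hi2⟩
  · rw [h]
    simpa using h0
  rcases wt_cases N j with h' | ⟨h', hj1, hj2⟩
  · rw [h']
    simpa using h0
  rw [h, h', mul_one, mul_one]
  have hi1' : (1 : ℝ) ≤ i := by exact_mod_cast hi1
  have hi2' : (i : ℝ) + 2 ≤ N := by exact_mod_cast hi2
  have hj1' : (1 : ℝ) ≤ j := by exact_mod_cast hj1
  have hj2' : (j : ℝ) + 2 ≤ N := by exact_mod_cast hj2
  refine inner_triangle (unit_down i j) ?_ ?_
  · intro x hx
    have := (dnT_bounds i j hx).1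
    simp only [Int.cast_natCast, mem_Icc] at this
    constructor <;> linarith [this.1, this.2]
  · intro x hx
    have := (dnT_bounds i j hx).2
    simp only [Int.cast_natCast, mem_Icc] at this
    constructor <;> linarith [this.1, this.2]

lemma exists_index {N : ℕ} (hN : 0 < N) {s : ℝ} (h0 : 0 ≤ s) (h1 : s ≤ N) :
    ∃ i : Fin N, ((i : ℕ) : ℝ) ≤ s ∧ s ≤ (i : ℕ) + 1 := by
  by_cases h : s < N
  · refine ⟨⟨⌊s⌋₊, (Nat.floor_lt h0).2 h⟩, Nat.floor_le h0, (Nat.lt_floor_add_one s).le⟩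
  · refine ⟨⟨N - 1, by omega⟩, ?_, ?_⟩
    · simp only
      rw [Nat.cast_sub hN]
      push_cast
      linarith
    · simp only
      rw [Nat.cast_sub hN]
      push_cast
      linarith

lemma Pg_compact (N : ℕ) : IsCompact (Pg N) := by
  have h1 : Pg N = (fun z : ℝ × ℝ => pt z.1 z.2) '' (Icc 0 (N : ℝ) ×ˢ Icc 0 (N : ℝ)) := by
    ext x
    constructor
    · intro hx
      exact ⟨(sc x, tc x), ⟨hx.1, hx.2⟩, pt_sc_tc x⟩
    · rintro ⟨⟨s, t⟩, ⟨hs, ht⟩, rfl⟩
      refine ⟨?_, ?_⟩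
      · rw [sc_pt]
        exact hs
      · rw [tc_pt]
        exact ht
  rw [h1]
  apply (isCompact_Icc.prod isCompact_Icc).image
  unfold pt
  fun_prop

theorem lower_integral (M : ℕ) : 3 * Real.sqrt 3 / 2 * c0 * (M : ℝ) ^ 2 ≤
    ∫ x in Om (M + 2), Metric.infDist x (Om (M + 2))ᶜ := by
  set N := M + 2 with hN
  set g : E → ℝ := fun x => Metric.infDist x (Om N)ᶜ with hg
  have hgc : Continuous g := Metric.continuous_infDist_pt _
  set A : Fin N × Fin N × Bool → Set E := fun z =>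
    if z.2.2 then upT (z.1 : ℕ) (z.2.1 : ℕ) else dnT (z.1 : ℕ) (z.2.1 : ℕ) with hA
  have hAc : ∀ z, IsCompact (A z) := by
    rintro ⟨i, j, b⟩
    cases b
    · exact tri_compact _ _ _
    · exact tri_compact _ _ _
  have hAv : ∀ z, volume.real (A z) = 3 * Real.sqrt 3 / 4 := by
    rintro ⟨i, j, b⟩
    cases b
    · exact (unit_down _ _).volume_tri
    · exact (unit_up _ _).volume_tri
  have hcov : Pg N ⊆ ⋃ z, A z := by
    intro x hx
    obtain ⟨i, hi1, hi2⟩ := exists_index (by omega : 0 < N) hx.1.1 hx.1.2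
    obtain ⟨j, hj1, hj2⟩ := exists_index (by omega : 0 < N) hx.2.1 hx.2.2
    rw [mem_iUnion]
    rcases le_total ((sc x - (i : ℕ)) + (tc x - (j : ℕ))) 1 with h | h
    · refine ⟨(i, j, true), ?_⟩
      have := mem_up hi1 hj1 h
      rw [pt_sc_tc] at this
      simpa [hA, upT] using this
    · refine ⟨(i, j, false), ?_⟩
      have := mem_down hi2 hj2 h
      rw [pt_sc_tc] at this
      simpa [hA, dnT] using this
  have hsub := setIntegral_le_sum hcov.eventuallyLE (fun x => 1 - g x)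
    (fun x => by have := infDist_le_one N x; simp only [Pi.zero_apply, hg]; linarith)
    (fun i => (by fun_prop : Continuous fun x => 1 - g x).continuousOn.integrableOn_compact (hAc i))
  have hA1 : ∀ z, ∫ x in A z, (1 - g x) = 3 * Real.sqrt 3 / 4 - ∫ x in A z, g x := by
    intro z
    have hi1 : IntegrableOn (fun _ : E => (1 : ℝ)) (A z) :=
      integrableOn_const (hAc z).measure_lt_top.ne enorm_ne_top
    rw [integral_sub hi1 (hgc.continuousOn.integrableOn_compact (hAc z)), setIntegral_const,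
      smul_eq_mul, mul_one, hAv]
  have hP1 : ∫ x in Pg N, (1 - g x) = 3 * Real.sqrt 3 / 2 * (N : ℝ) ^ 2 - ∫ x in Pg N, g x := by
    have hi1 : IntegrableOn (fun _ : E => (1 : ℝ)) (Pg N) :=
      integrableOn_const (Pg_compact N).measure_lt_top.ne enorm_ne_top
    rw [integral_sub hi1 (hgc.continuousOn.integrableOn_compact (Pg_compact N)), setIntegral_const,
      smul_eq_mul, mul_one, volume_Pg]
  rw [hP1] at hsub
  simp only [hA1] at hsub
  rw [Finset.sum_sub_distrib, Finset.sum_const, Finset.card_univ, Fintype.card_prod,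
    Fintype.card_prod, Fintype.card_fin, Fintype.card_bool, nsmul_eq_mul] at hsub
  push_cast at hsub
  have hsum : 3 * Real.sqrt 3 / 2 * c0 * (M : ℝ) ^ 2 ≤ ∑ z, ∫ x in A z, g x := by
    rw [Fintype.sum_prod_type]
    simp only [Fintype.sum_prod_type, Fintype.sum_bool]
    have h1 : ∀ i j : Fin N, 3 * Real.sqrt 3 / 2 * c0 * (wt N i * wt N j) ≤
        (∫ x in A (i, j, true), g x) + ∫ x in A (i, j, false), g x := by
      intro i j
      have e1 := up_ge N i j
      have e2 := dn_ge N i j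
      have e3 : A (i, j, true) = upT (i : ℕ) (j : ℕ) := rfl
      have e4 : A (i, j, false) = dnT (i : ℕ) (j : ℕ) := rfl
      rw [e3, e4]
      linarith
    calc 3 * Real.sqrt 3 / 2 * c0 * (M : ℝ) ^ 2
        = ∑ i : Fin N, ∑ j : Fin N, 3 * Real.sqrt 3 / 2 * c0 * (wt N i * wt N j) := by
          have h2 : ∑ i : Fin N, wt N i = M := by
            rw [Fin.sum_univ_eq_sum_range (fun k => wt N k), hN, sum_wt]
          simp only [← Finset.mul_sum, h2]
          rw [← Finset.sum_mul, h2]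
          ring
      _ ≤ _ := Finset.sum_le_sum fun i _ => Finset.sum_le_sum fun j _ => h1 i j
  have hgOm : ∫ x in Om N, g x = ∫ x in Pg N, g x := by
    refine (setIntegral_eq_of_subset_of_forall_sdiff_eq_zero (Pg_closed N).measurableSet
      (Om_subset N) ?_).symm
    intro x hx
    exact Metric.infDist_zero_of_mem hx.2
  rw [hgOm]
  have hNM : (N : ℝ) = M + 2 := by rw [hN]; push_cast; ring
  linarith

end Pool.Agent.MP_50360a_an
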