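import Pool.Agent.Lib.MP_50360a_an.Cell

/-!
# The mean distance to the nearest vertex of a triangle
-/

open MeasureTheory Set

namespace Pool.Agent.MP_50360a_an

/-- The midpoint cell of the triangle `a b c` next to the vertex `a` and the side `a b`: its
vertices are `a`, the midpoint of `a b`, and the centroid. -/
def cell (a b c : E) : Set E := tri a ((1 / 2 : ℝ) • (a + b)) ((1 / 3 : ℝ) • (a + b + c))

/-- The vector from `a` to a point of the side opposite to `a` of the cell. -/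
noncomputable def yv (a b c : E) (k : ℝ) : E :=
  (1 / 2 : ℝ) • (b - a) + k • ((1 / 6 : ℝ) • (c - a + (c - b)))

/-- Sum of the squares of the sides. -/
noncomputable def SS (a b c : E) : ℝ := ‖b - a‖ ^ 2 + ‖c - b‖ ^ 2 + ‖a - c‖ ^ 2

lemma det_cell (a b c : E) :
    det2 ((1 / 2 : ℝ) • (a + b) - a) ((1 / 3 : ℝ) • (a + b + c) - (1 / 2 : ℝ) • (a + b)) =
      det2 (b - a) (c - a) / 6 := by
  simp [det2]
  ring

lemma volume_cell {a b c : E} (hd : det2 (b - a) (c - a) ≠ 0) :
    volume.real (cell a b c) = |det2 (b - a) (c - a)| / 12 := by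
  rw [cell, volume_tri _ _ _ (by rw [det_cell]; exact div_ne_zero hd (by norm_num)), det_cell,
    abs_div]
  norm_num
  ring

lemma moment_cell {a b c : E} (hd : det2 (b - a) (c - a) ≠ 0) :
    ∫ x in cell a b c, ‖x - a‖ = |det2 (b - a) (c - a)| / 18 *
      ∫ k in (0 : ℝ)..1, ‖yv a b c k‖ := by
  rw [cell, moment_tri _ _ _ (by rw [det_cell]; exact div_ne_zero hd (by norm_num)), det_cell,
    abs_div]
  have : ∀ k : ℝ, (1 / 2 : ℝ) • (a + b) - a +
      k • ((1 / 3 : ℝ) • (a + b + c) - (1 / 2 : ℝ) • (a + b)) = yv a b c k := by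
    intro k
    rw [yv]
    ext i
    simp
    ring
  simp only [this]
  have h6 : |(6 : ℝ)| = 6 := by norm_num
  rw [h6]
  ring

lemma volume_tri' {a b c : E} (hd : det2 (b - a) (c - a) ≠ 0) :
    volume.real (tri a b c) = |det2 (b - a) (c - a)| / 2 := by
  have : det2 (b - a) (c - b) = det2 (b - a) (c - a) := by
    simp [det2]
    ring
  rw [volume_tri _ _ _ (by rwa [this]), this]

lemma mem_cell {a b c : E} {α β γ : ℝ} (h1 : β ≤ α) (h2 : γ ≤ β) (h3 : 0 ≤ γ)
    (h : α + β + γ = 1) : α • a + β • b + γ • c ∈ cell a b c := by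
  rw [cell, mem_tri]
  refine ⟨α - β, 2 * (β - γ), 3 * γ, by linarith, by linarith, by linarith, by linarith, ?_⟩
  ext i
  simp
  ring

/-- The six cells. -/
def cells (a b c : E) : Fin 6 → Set E :=
  ![cell a b c, cell b a c, cell b c a, cell c b a, cell c a b, cell a c b]

lemma tri_subset_cells (a b c : E) : tri a b c ⊆ ⋃ i, cells a b c i := by
  intro x hx
  rw [mem_tri] at hx
  obtain ⟨α, β, γ, hα, hβ, hγ, h, rfl⟩ := hx
  rw [mem_iUnion]
  rcases le_total α β with h1 | h1 <;> rcases le_total β γ with h2 | h2 <;>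
    rcases le_total α γ with h3 | h3
  · refine ⟨3, ?_⟩
    show _ ∈ cell c b a
    have := mem_cell (a := c) (b := b) (c := a) h2 h1 hα (by linarith)
    convert this using 1
    abel
  · have e1 : α = β := by linarith
    have e2 : β = γ := by linarith
    subst e1 e2
    refine ⟨0, ?_⟩
    exact mem_cell le_rfl le_rfl hα h
  · refine ⟨2, ?_⟩
    show _ ∈ cell b c a
    have := mem_cell (a := b) (b := c) (c := a) h2 h3 hα (by linarith)
    convert this using 1
    abel
  · refine ⟨1, ?_⟩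
    show _ ∈ cell b a c
    have := mem_cell (a := b) (b := a) (c := c) h1 h3 hγ (by linarith)
    convert this using 1
    abel
  · refine ⟨4, ?_⟩
    show _ ∈ cell c a b
    have := mem_cell (a := c) (b := a) (c := b) h3 h1 hβ (by linarith)
    convert this using 1
    abel
  · refine ⟨5, ?_⟩
    show _ ∈ cell a c b
    have := mem_cell (a := a) (b := c) (c := b) h3 h2 hβ (by linarith)
    convert this using 1
    abel
  · have e1 : α = β := by linarith
    have e2 : β = γ := by linarith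
    subst e1 e2
    refine ⟨0, ?_⟩
    exact mem_cell le_rfl le_rfl hα h
  · refine ⟨0, ?_⟩
    exact mem_cell h1 h2 hγ h

lemma norm_sq_E (p : E) : ‖p‖ ^ 2 = p 0 ^ 2 + p 1 ^ 2 := by
  rw [EuclideanSpace.norm_sq_eq]
  simp [Fin.sum_univ_two]

lemma sum_yv_sq (a b c : E) (k : ℝ) :
    ‖yv a b c k‖ ^ 2 + ‖yv b a c k‖ ^ 2 + ‖yv b c a k‖ ^ 2 + ‖yv c b a k‖ ^ 2 +
      ‖yv c a b k‖ ^ 2 + ‖yv a c b k‖ ^ 2 = SS a b c * (3 + k ^ 2) / 6 := by
  simp only [norm_sq_E, yv, SS]
  simp
  ring

lemma sum_yv_le (a b c : E) (k : ℝ) :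
    ‖yv a b c k‖ + ‖yv b a c k‖ + ‖yv b c a k‖ + ‖yv c b a k‖ +
      ‖yv c a b k‖ + ‖yv a c b k‖ ≤ Real.sqrt (SS a b c) * Real.sqrt (3 + k ^ 2) := by
  have hS : 0 ≤ SS a b c := by
    rw [SS]
    positivity
  rw [← Real.sqrt_mul hS]
  apply Real.le_sqrt_of_sq_le
  have h := sum_yv_sq a b c k
  set p := ‖yv a b c k‖
  set q := ‖yv b a c k‖
  set r := ‖yv b c a k‖
  set s := ‖yv c b a k‖
  set t := ‖yv c a b k‖
  set u := ‖yv a c b k‖
  nlinarith [sq_nonneg (p - q), sq_nonneg (p - r), sq_nonneg (p - s), sq_nonneg (p - t),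
    sq_nonneg (p - u), sq_nonneg (q - r), sq_nonneg (q - s), sq_nonneg (q - t), sq_nonneg (q - u),
    sq_nonneg (r - s), sq_nonneg (r - t), sq_nonneg (r - u), sq_nonneg (s - t), sq_nonneg (s - u),
    sq_nonneg (t - u)]

/-- The extremal constant. -/
noncomputable def c0 : ℝ := 1 / 3 + Real.log 3 / 4

lemma yv_continuous (a b c : E) : Continuous fun k => ‖yv a b c k‖ := by
  unfold yv
  fun_prop

lemma cells_compact (a b c : E) (i : Fin 6) : IsCompact (cells a b c i) := by
  fin_cases i <;> exact tri_compact _ _ _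

lemma cell_integrable (a b c : E) {h : E → ℝ} (hh : Continuous h) :
    IntegrableOn h (cell a b c) :=
  hh.continuousOn.integrableOn_compact (tri_compact _ _ _)

/-- The mean of the distance to the nearest vertex of a triangle with sides `x, y, z` is at most
`c₀ √(x² + y² + z²) / 3`. -/
theorem triangle_le {a b c : E} (hd : det2 (b - a) (c - a) ≠ 0) {f : E → ℝ} (hf : Continuous f)
    (h0 : 0 ≤ f) (ha : ∀ x, f x ≤ ‖x - a‖) (hb : ∀ x, f x ≤ ‖x - b‖) (hc : ∀ x, f x ≤ ‖x - c‖) :
    ∫ x in tri a b c, f x ≤ c0 * (Real.sqrt (SS a b c) / 3) * volume.real (tri a b c) := by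
  have h1 := setIntegral_le_sum (tri_subset_cells a b c).eventuallyLE f h0
    (fun i => hf.continuousOn.integrableOn_compact (cells_compact a b c i))
  refine h1.trans ?_
  have h2 : ∀ (p q r : E), (∀ x, f x ≤ ‖x - p‖) → ∫ x in cell p q r, f x ≤
      ∫ x in cell p q r, ‖x - p‖ := by
    intro p q r hp
    exact setIntegral_mono (cell_integrable _ _ _ hf) (cell_integrable _ _ _ (by fun_prop)) hp
  have e1 : |det2 (a - b) (c - b)| = |det2 (b - a) (c - a)| := by
    rw [← abs_neg]; congr 1; simp [det2]; ring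
  have e2 : |det2 (c - b) (a - b)| = |det2 (b - a) (c - a)| := by
    congr 1; simp [det2]; ring
  have e3 : |det2 (b - c) (a - c)| = |det2 (b - a) (c - a)| := by
    rw [← abs_neg]; congr 1; simp [det2]; ring
  have e4 : |det2 (a - c) (b - c)| = |det2 (b - a) (c - a)| := by
    congr 1; simp [det2]; ring
  have e5 : |det2 (c - a) (b - a)| = |det2 (b - a) (c - a)| := by
    rw [← abs_neg]; congr 1; simp [det2]; ring
  have hne : |det2 (b - a) (c - a)| ≠ 0 := abs_ne_zero.2 hd
  have m0 := (h2 a b c ha).trans_eq (moment_cell hd)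
  have m1 := (h2 b a c hb).trans_eq (moment_cell (abs_ne_zero.1 (by rw [e1]; exact hne)))
  have m2 := (h2 b c a hb).trans_eq (moment_cell (abs_ne_zero.1 (by rw [e2]; exact hne)))
  have m3 := (h2 c b a hc).trans_eq (moment_cell (abs_ne_zero.1 (by rw [e3]; exact hne)))
  have m4 := (h2 c a b hc).trans_eq (moment_cell (abs_ne_zero.1 (by rw [e4]; exact hne)))
  have m5 := (h2 a c b ha).trans_eq (moment_cell (abs_ne_zero.1 (by rw [e5]; exact hne)))
  rw [e1] at m1
  rw [e2] at m2
  rw [e3] at m3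
  rw [e4] at m4
  rw [e5] at m5
  rw [volume_tri' hd]
  have h3 : (∑ i, ∫ x in cells a b c i, f x) = (∫ x in cell a b c, f x) +
      (∫ x in cell b a c, f x) + (∫ x in cell b c a, f x) + (∫ x in cell c b a, f x) +
      (∫ x in cell c a b, f x) + (∫ x in cell a c b, f x) := by
    simp only [Fin.sum_univ_six]
    rfl
  rw [h3]
  have hi : ∀ p q r : E, IntervalIntegrable (fun k => ‖yv p q r k‖) volume 0 1 := fun p q r =>
    (yv_continuous p q r).intervalIntegrable _ _
  have h4 : (∫ k in (0 : ℝ)..1, ‖yv a b c k‖) + (∫ k in (0 : ℝ)..1, ‖yv b a c k‖) +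
      (∫ k in (0 : ℝ)..1, ‖yv b c a k‖) + (∫ k in (0 : ℝ)..1, ‖yv c b a k‖) +
      (∫ k in (0 : ℝ)..1, ‖yv c a b k‖) + (∫ k in (0 : ℝ)..1, ‖yv a c b k‖) ≤
      Real.sqrt (SS a b c) * (1 + 3 / 4 * Real.log 3) := by
    rw [← integral_sqrt, ← intervalIntegral.integral_const_mul,
      ← intervalIntegral.integral_add (hi _ _ _) (hi _ _ _),
      ← intervalIntegral.integral_add ((hi _ _ _).add (hi _ _ _)) (hi _ _ _),
      ← intervalIntegral.integral_add (((hi _ _ _).add (hi _ _ _)).add (hi _ _ _)) (hi _ _ _),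
      ← intervalIntegral.integral_add ((((hi _ _ _).add (hi _ _ _)).add (hi _ _ _)).add (hi _ _ _))
        (hi _ _ _),
      ← intervalIntegral.integral_add (((((hi _ _ _).add (hi _ _ _)).add (hi _ _ _)).add
        (hi _ _ _)).add (hi _ _ _)) (hi _ _ _)]
    refine intervalIntegral.integral_mono_on zero_le_one ?_ ?_ fun k _ => sum_yv_le a b c k
    · exact (((((hi _ _ _).add (hi _ _ _)).add (hi _ _ _)).add (hi _ _ _)).add (hi _ _ _)).add
        (hi _ _ _)
    · apply Continuous.intervalIntegrable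
      fun_prop
  have hD : 0 ≤ |det2 (b - a) (c - a)| := abs_nonneg _
  rw [c0]
  nlinarith [mul_le_mul_of_nonneg_left h4 hD]

end Pool.Agent.MP_50360a_an
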