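import Pool.Agent.Lib.MP_50360a_an.Delaunay

/-!
# The upper bound
-/

open MeasureTheory Set Filter Topology Function

namespace Pool.Agent.MP_50360a_an

lemma alg_circle {u0 u1 w0 w1 g0 g1 : ℝ}
    (e1 : 2 * (g0 * u0 + g1 * u1) + (u0 ^ 2 + u1 ^ 2) = 0)
    (e2 : 2 * (g0 * w0 + g1 * w1) + (w0 ^ 2 + w1 ^ 2) = 0)
    (hdet : u0 * w1 - u1 * w0 = 0) :
    (u0 = 0 ∧ u1 = 0) ∨ (w0 = 0 ∧ w1 = 0) ∨ (u0 = w0 ∧ u1 = w1) := by
  have hsum : ∀ {x y : ℝ}, x ^ 2 + y ^ 2 = 0 → x = 0 ∧ y = 0 := by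
    intro x y h
    constructor <;> nlinarith [sq_nonneg x, sq_nonneg y]
  by_cases hu : u0 ^ 2 + u1 ^ 2 = 0
  · exact Or.inl (hsum hu)
  by_cases hw : w0 ^ 2 + w1 ^ 2 = 0
  · exact Or.inr (Or.inl (hsum hw))
  have e3 : (u0 * w0 + u1 * w1) * (g0 * u0 + g1 * u1) =
      (u0 ^ 2 + u1 ^ 2) * (g0 * w0 + g1 * w1) := by
    linear_combination (-(u0 * g1) + u1 * g0) * hdet
  have e4 : (u0 * w0 + u1 * w1) * (g0 * w0 + g1 * w1) =
      (w0 ^ 2 + w1 ^ 2) * (g0 * u0 + g1 * u1) := by
    linear_combination (w0 * g1 - w1 * g0) * hdet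
  have e5 : (u0 ^ 2 + u1 ^ 2) * (w0 ^ 2 + w1 ^ 2 - (u0 * w0 + u1 * w1)) = 0 := by
    linear_combination 2 * e3 - (u0 * w0 + u1 * w1) * e1 + (u0 ^ 2 + u1 ^ 2) * e2
  have e6 : (w0 ^ 2 + w1 ^ 2) * (u0 ^ 2 + u1 ^ 2 - (u0 * w0 + u1 * w1)) = 0 := by
    linear_combination 2 * e4 - (u0 * w0 + u1 * w1) * e2 + (w0 ^ 2 + w1 ^ 2) * e1
  have e5' := (mul_eq_zero.1 e5).resolve_left hu
  have e6' := (mul_eq_zero.1 e6).resolve_left hw
  have e7 : (u0 - w0) ^ 2 + (u1 - w1) ^ 2 = 0 := by linarith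
  obtain ⟨h0, h1⟩ := hsum e7
  exact Or.inr (Or.inr ⟨by linarith, by linarith⟩)

lemma ext2 {p q : E} (h0 : p 0 = q 0) (h1 : p 1 = q 1) : p = q := by
  ext i
  fin_cases i
  · exact h0
  · exact h1

lemma det_ne_zero_of_circle {a b c z : E} {R : ℝ} (hab : a ≠ b) (hac : a ≠ c) (hbc : b ≠ c)
    (ha : dist a z = R) (hb : dist b z = R) (hc : dist c z = R) :
    det2 (b - a) (c - a) ≠ 0 := by
  intro hdet
  have ha2 : dist a z ^ 2 = R ^ 2 := by rw [ha]
  have hb2 : dist b z ^ 2 = R ^ 2 := by rw [hb]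
  have hc2 : dist c z ^ 2 = R ^ 2 := by rw [hc]
  rw [dist_eq_norm, norm_sq_E] at ha2 hb2 hc2
  simp only [PiLp.sub_apply, det2] at ha2 hb2 hc2 hdet
  rcases alg_circle (u0 := b 0 - a 0) (u1 := b 1 - a 1) (w0 := c 0 - a 0) (w1 := c 1 - a 1)
    (g0 := a 0 - z 0) (g1 := a 1 - z 1) (by linarith) (by linarith) hdet with h | h | h
  · exact hab (ext2 (by linarith [h.1]) (by linarith [h.2]))
  · exact hac (ext2 (by linarith [h.1]) (by linarith [h.2]))
  · exact hbc (ext2 (by linarith [h.1]) (by linarith [h.2]))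

lemma SS_le {a b c z : E} {R : ℝ} (ha : dist a z = R) (hb : dist b z = R) (hc : dist c z = R) :
    SS a b c ≤ 9 * R ^ 2 := by
  have ha2 : dist a z ^ 2 = R ^ 2 := by rw [ha]
  have hb2 : dist b z ^ 2 = R ^ 2 := by rw [hb]
  have hc2 : dist c z ^ 2 = R ^ 2 := by rw [hc]
  rw [dist_eq_norm, norm_sq_E] at ha2 hb2 hc2
  simp only [SS, norm_sq_E]
  simp only [PiLp.sub_apply] at *
  nlinarith [sq_nonneg (a 0 + b 0 + c 0 - 3 * z 0), sq_nonneg (a 1 + b 1 + c 1 - 3 * z 1)]

lemma c0_pos : 0 < c0 := by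
  rw [c0]
  have := Real.log_pos (by norm_num : (1 : ℝ) < 3)
  positivity

/-- The estimate for one Delaunay triangle. -/
lemma del_triangle_le {P t : Finset E} {f : E → ℝ} (hf : Continuous f) (h0 : 0 ≤ f)
    (hfp : ∀ p ∈ P, ∀ x, f x ≤ ‖x - p‖) {z : E} {R : ℝ} (htP : t ⊆ P) (hcard : t.card = 3)
    (hzR : ∀ p ∈ t, dist p z = R) {r e : ℝ} (hRr : R ≤ r) (he : 0 < e) {K : Set E}
    (hKm : MeasurableSet K)
    (hK : ∀ x ∈ K, x ∈ convexHull ℝ (t : Set E) → R ^ 2 - dist x z ^ 2 < 2 * R * e) :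
    ∫ x in convexHull ℝ (t : Set E), f x ≤
      c0 * (r * volume.real (convexHull ℝ (t : Set E) \ K) +
        7 * Real.sqrt (r * e) * volume.real (convexHull ℝ (t : Set E))) := by
  classical
  obtain ⟨a, b, c, hab, hac, hbc, rfl⟩ := Finset.card_eq_three.1 hcard
  have hset : convexHull ℝ (({a, b, c} : Finset E) : Set E) = tri a b c := by
    rw [tri]
    simp
  rw [hset] at hK ⊢
  have ha : dist a z = R := hzR a (by simp)
  have hb : dist b z = R := hzR b (by simp)
  have hc : dist c z = R := hzR c (by simp)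
  have hdet := det_ne_zero_of_circle hab hac hbc ha hb hc
  have hR0 : 0 ≤ R := ha ▸ dist_nonneg
  have hR : 0 < R := by
    rcases hR0.lt_or_eq with h | h
    · exact h
    · exfalso
      rw [← h] at ha hb
      exact hab ((dist_eq_zero.1 ha).trans (dist_eq_zero.1 hb).symm)
  have h1 := triangle_le hdet hf h0 (hfp a (htP (by simp))) (hfp b (htP (by simp)))
    (hfp c (htP (by simp)))
  refine h1.trans ?_
  rw [mul_assoc]
  refine mul_le_mul_of_nonneg_left ?_ c0_pos.le
  have h2 := vol_inter_le he hR ha hb hc hK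
  have hTc : IsCompact (tri a b c) := tri_compact a b c
  have h3 : volume.real (tri a b c \ K) + volume.real (tri a b c ∩ K) = volume.real (tri a b c) :=
    measureReal_sdiff_add_inter hKm hTc.measure_lt_top.ne
  have h4 : Real.sqrt (SS a b c) / 3 ≤ R := by
    have h5 : Real.sqrt (SS a b c) ≤ 3 * R := by
      rw [Real.sqrt_le_left (by positivity)]
      have := SS_le ha hb hc
      nlinarith
    linarith
  have h5 : 0 ≤ volume.real (tri a b c \ K) := measureReal_nonneg
  have h6 : 0 ≤ volume.real (tri a b c) := measureReal_nonneg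
  have h7 : Real.sqrt (R * e) ≤ Real.sqrt (r * e) :=
    Real.sqrt_le_sqrt (mul_le_mul_of_nonneg_right hRr he.le)
  have h8 : 7 * Real.sqrt (R * e) * volume.real (tri a b c) ≤
      7 * Real.sqrt (r * e) * volume.real (tri a b c) :=
    mul_le_mul_of_nonneg_right (by linarith) h6
  have h9 : Real.sqrt (SS a b c) / 3 * volume.real (tri a b c \ K) ≤
      r * volume.real (tri a b c \ K) := mul_le_mul_of_nonneg_right (h4.trans hRr) h5
  calc Real.sqrt (SS a b c) / 3 * volume.real (tri a b c)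
      = Real.sqrt (SS a b c) / 3 * volume.real (tri a b c \ K) +
        Real.sqrt (SS a b c) / 3 * volume.real (tri a b c ∩ K) := by rw [← h3]; ring
    _ ≤ _ := by linarith


/-- A generic finite approximation of the complement of `Ω`. -/
lemma exists_net {Ω : Set E} (hΩ : IsOpen Ω) (R1 : ℝ) {e : ℝ} (he : 0 < e) :
    ∃ P : Finset E, Generic P ∧ (∀ q, q ∉ Ω → ‖q‖ ≤ R1 → ∃ p ∈ P, dist q p < e) ∧
      (∀ p ∈ P, ∃ q, q ∉ Ω ∧ ‖q‖ ≤ R1 ∧ dist p q < e) := by
  classical
  have hK : IsCompact (Ωᶜ ∩ Metric.closedBall (0 : E) R1) :=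
    (isCompact_closedBall 0 R1).inter_left hΩ.isClosed_compl
  obtain ⟨Q, hQK, hQf, hQ⟩ := hK.finite_cover_balls (half_pos he)
  obtain ⟨P, hP, h1, h2⟩ := exists_generic hQf.toFinset (half_pos he)
  refine ⟨P, hP, ?_, ?_⟩
  · intro q hq hqR
    have h3 := hQ ⟨hq, by simpa using hqR⟩
    simp only [mem_iUnion, exists_prop, Metric.mem_ball] at h3
    obtain ⟨y, hy, hqy⟩ := h3
    obtain ⟨p, hp, hpy⟩ := h1 y (by simpa using hy)
    refine ⟨p, hp, ?_⟩
    have := dist_triangle_right q p y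
    linarith
  · intro p hp
    obtain ⟨q, hq, hpq⟩ := h2 p hp
    have h3 := hQK (by simpa using hq)
    exact ⟨q, h3.1, by simpa using h3.2, by linarith⟩

/-- An empty disc whose closed disc meets the ball of radius `R0` has radius at most
`ρ + 2 e`. -/
lemma radius_le {Ω : Set E} {R0 ρ e : ℝ} (hρ0 : 0 ≤ ρ)
    (hρ : ∀ x ∈ Ω, Metric.infDist x Ωᶜ ≤ ρ) (hne : (Ωᶜ).Nonempty) (he : 0 < e) (he1 : e ≤ 1)
    {P : Finset E}
    (hP : ∀ q, q ∉ Ω → ‖q‖ ≤ R0 + 2 * ρ + 10 → ∃ p ∈ P, dist q p < e) {z : E} {R : ℝ}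
    (hz : ∀ p ∈ P, R ≤ dist p z) {x : E} (hx : ‖x‖ ≤ R0) (hxz : dist x z ≤ R) :
    R ≤ ρ + 2 * e := by
  by_contra hcon
  push Not at hcon
  set r := ρ + 2 * e with hr
  have hr0 : 0 < r := by positivity
  have hR : 0 < R := by linarith
  set y := x + (r / R) • (z - x) with hy
  have hyx : dist y x ≤ r := by
    rw [dist_eq_norm, hy, add_sub_cancel_left, norm_smul, Real.norm_of_nonneg (by positivity),
      ← dist_eq_norm, dist_comm z x]
    calc r / R * dist x z ≤ r / R * R := by gcongr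
      _ = r := by field_simp
  have hyz : dist y z ≤ R - r := by
    have h1 : y - z = (1 - r / R) • (x - z) := by
      rw [hy]
      module
    have h2 : 0 ≤ 1 - r / R := by
      rw [sub_nonneg, div_le_one hR]
      exact hcon.le
    rw [dist_eq_norm, h1, norm_smul, Real.norm_of_nonneg h2, ← dist_eq_norm]
    calc (1 - r / R) * dist x z ≤ (1 - r / R) * R := by gcongr
      _ = R - r := by field_simp
  have hball : ∀ q, dist q y < ρ + e → q ∈ Ω := by
    intro q hq
    by_contra hqΩ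
    have hqn : ‖q‖ ≤ R0 + 2 * ρ + 10 := by
      have h1 : ‖q‖ ≤ ‖x‖ + dist q x := by
        have := norm_add_le x (q - x)
        rwa [add_sub_cancel, ← dist_eq_norm] at this
      have h2 := dist_triangle q y x
      linarith
    obtain ⟨p, hp, hpq⟩ := hP q hqΩ hqn
    have h1 := hz p hp
    have h2 : dist p z ≤ dist p q + dist q y + dist y z := dist_triangle4 p q y z
    rw [dist_comm p q] at h2
    linarith
  have hyΩ : y ∈ Ω := hball y (by rw [dist_self]; positivity)
  have h1 := hρ y hyΩ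
  have h2 : ρ + e ≤ Metric.infDist y Ωᶜ := by
    rw [Metric.le_infDist hne]
    intro q hq
    by_contra hlt
    push Not at hlt
    exact hq (hball q (by rwa [dist_comm]))
  linarith

theorem upper_aux {Ω : Set E} (hΩ : IsOpen Ω) {R0 ρ e : ℝ} (hR0 : ∀ x ∈ Ω, ‖x‖ ≤ R0)
    (hR00 : 0 ≤ R0) (hρ0 : 0 ≤ ρ) (hρ : ∀ x ∈ Ω, Metric.infDist x Ωᶜ ≤ ρ) (he : 0 < e)
    (he1 : e ≤ 1) :
    ∫ x in Ω, Metric.infDist x Ωᶜ ≤
      c0 * ((ρ + 2 * e) * volume.real Ω + 7 * Real.sqrt ((ρ + 2 * e) * e) *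
        volume.real (Metric.closedBall (0 : E) (R0 + 2 * ρ + 11))) + e * volume.real Ω := by
  classical
  obtain ⟨P, hPg, hP1, hP2⟩ := exists_net hΩ (R0 + 2 * ρ + 10) he
  set r := ρ + 2 * e with hr
  have hr0 : 0 < r := by positivity
  have hΩb : Bornology.IsBounded Ω :=
    Metric.isBounded_closedBall.subset (fun x hx => by simpa using hR0 x hx :
      Ω ⊆ Metric.closedBall (0 : E) R0)
  have hΩfin : volume Ω ≠ ⊤ := hΩb.measure_lt_top.ne
  -- the complement is nonempty
  obtain ⟨w0, hw0⟩ : ∃ w : E, ‖w‖ = 1 := exists_norm_eq E zero_le_one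
  have hout : ∀ z : E, z ≠ 0 → ∃ q : E, q ∉ Ω ∧ ‖q‖ = R0 + 2 * ρ + 10 ∧
      inner ℝ z q = ‖z‖ * (R0 + 2 * ρ + 10) := by
    intro z hz
    have hz' : ‖z‖ ≠ 0 := norm_ne_zero_iff.2 hz
    have hzp : 0 < ‖z‖ := norm_pos_iff.2 hz
    have hpos : 0 < R0 + 2 * ρ + 10 := by positivity
    have h1 : ‖((R0 + 2 * ρ + 10) / ‖z‖) • z‖ = R0 + 2 * ρ + 10 := by
      rw [norm_smul, Real.norm_of_nonneg (by positivity), div_mul_cancel₀ _ hz']
    refine ⟨((R0 + 2 * ρ + 10) / ‖z‖) • z, ?_, h1, ?_⟩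
    · intro hq
      have := hR0 _ hq
      rw [h1] at this
      linarith
    · rw [real_inner_smul_right, real_inner_self_eq_norm_sq]
      field_simp
  have hne : (Ωᶜ).Nonempty := by
    obtain ⟨q, hq, -⟩ := hout w0 (by
      intro h
      rw [h, norm_zero] at hw0
      exact zero_ne_one hw0)
    exact ⟨q, hq⟩
  have hPne : (P : Set E).Nonempty := by
    obtain ⟨q, hq, hqn, -⟩ := hout w0 (by
      intro h
      rw [h, norm_zero] at hw0
      exact zero_ne_one hw0)
    obtain ⟨p, hp, -⟩ := hP1 q hq hqn.le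
    exact ⟨p, hp⟩
  -- coercivity
  have hcoer : ∀ x ∈ Ω, ∀ z : E, ∃ p ∈ P, ‖z‖ ≤ inner ℝ z (p - x) := by
    intro x hx z
    by_cases hz : z = 0
    · obtain ⟨p, hp⟩ := hPne
      exact ⟨p, hp, by simp [hz]⟩
    · obtain ⟨q, hq, hqn, hzq⟩ := hout z hz
      obtain ⟨p, hp, hqp⟩ := hP1 q hq hqn.le
      refine ⟨p, hp, ?_⟩
      have h1 : inner ℝ z (p - x) = inner ℝ z q - inner ℝ z x - inner ℝ z (q - p) := by
        rw [inner_sub_right, inner_sub_right]
        ring
      have h2 : inner ℝ z x ≤ ‖z‖ * R0 :=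
        (real_inner_le_norm z x).trans (mul_le_mul_of_nonneg_left (hR0 x hx) (norm_nonneg z))
      have h3 : inner ℝ z (q - p) ≤ ‖z‖ * 1 := by
        refine (real_inner_le_norm z (q - p)).trans (mul_le_mul_of_nonneg_left ?_ (norm_nonneg z))
        rw [← dist_eq_norm]
        linarith
      rw [h1, hzq]
      nlinarith [norm_nonneg z, mul_nonneg (norm_nonneg z) hρ0]
  -- the function
  set f : E → ℝ := fun x => Metric.infDist x (P : Set E) with hf
  have hfc : Continuous f := Metric.continuous_infDist_pt _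
  have hf0 : 0 ≤ f := fun x => Metric.infDist_nonneg
  have hfp : ∀ p ∈ P, ∀ x, f x ≤ ‖x - p‖ := by
    intro p hp x
    rw [← dist_eq_norm]
    exact Metric.infDist_le_dist_of_mem hp
  have hfΩ : ∀ x, Metric.infDist x Ωᶜ ≤ f x + e := by
    intro x
    have h1 : Metric.infDist x Ωᶜ - e ≤ f x := by
      rw [hf, Metric.le_infDist hPne]
      intro p hp
      obtain ⟨q, hq, -, hpq⟩ := hP2 p hp
      have h2 : Metric.infDist x Ωᶜ ≤ dist x q := Metric.infDist_le_dist_of_mem hq
      have h3 := dist_triangle x p q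
      linarith
    linarith
  -- the triangles
  set 𝒯 : Finset (Finset E) := P.powerset.filter fun t =>
    IsDel P t ∧ (convexHull ℝ (t : Set E) ∩ Ω).Nonempty with h𝒯
  have hmem : ∀ t ∈ 𝒯, IsDel P t ∧ (convexHull ℝ (t : Set E) ∩ Ω).Nonempty := fun t ht =>
    (Finset.mem_filter.1 ht).2
  set T : 𝒯 → Set E := fun t => convexHull ℝ ((t : Finset E) : Set E) with hT
  have hTc : ∀ t, IsCompact (T t) := fun t =>
    (t : Finset E).finite_toSet.isCompact_convexHull (𝕜 := ℝ)
  have hcover : Ω ≤ᵐ[volume] ⋃ t, T t := by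
    have h1 : ∀ᵐ x ∂(volume : Measure E), x ∉ lines P := by
      rw [ae_iff]
      simpa using volume_lines P
    filter_upwards [h1] with x hx hxΩ
    obtain ⟨t, ht, hxt⟩ := exists_isDel hx (hcoer x hxΩ)
    exact mem_iUnion.2 ⟨⟨t, Finset.mem_filter.2 ⟨Finset.mem_powerset.2 ht.1, ht, x, hxt, hxΩ⟩⟩, hxt⟩
  have hstep : ∀ t : 𝒯, ∫ x in T t, f x ≤
      c0 * (r * volume.real (T t ∩ Ω) + 7 * Real.sqrt (r * e) * volume.real (T t)) := by
    intro t
    obtain ⟨⟨htP, hcard, z, R, hz, hzt⟩, x0, hx0T, hx0Ω⟩ := hmem t t.2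
    have hTz : T t ⊆ Metric.closedBall z R :=
      convexHull_min (fun p hp => (hzt p hp).le) (convex_closedBall z R)
    have hRr : R ≤ r := radius_le hρ0 hρ hne he he1 hP1 hz (hR0 x0 hx0Ω) (hTz hx0T)
    have h1 := del_triangle_le (K := Ωᶜ) hfc hf0 hfp htP hcard hzt hRr he
      hΩ.isClosed_compl.measurableSet (by
        intro x hx hxT
        have hxz : dist x z ≤ R := hTz hxT
        have hx0z : dist x0 z ≤ R := hTz hx0T
        have hxn : ‖x‖ ≤ R0 + 2 * ρ + 10 := by
          have h1 : ‖x‖ ≤ ‖x0‖ + dist x x0 := by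
            have := norm_add_le x0 (x - x0)
            rwa [add_sub_cancel, ← dist_eq_norm] at this
          have h2 := dist_triangle_right x x0 z
          have h3 := hR0 x0 hx0Ω
          linarith
        obtain ⟨p, hp, hxp⟩ := hP1 x hx hxn
        have h2 := hz p hp
        have h3 := dist_triangle_left p z x
        have h4 : R - e < dist x z := by linarith
        have hRpos : 0 ≤ R := dist_nonneg.trans hxz
        by_cases hRe : e ≤ R
        · have h5 : (R - e) ^ 2 < dist x z ^ 2 :=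
            pow_lt_pow_left₀ h4 (by linarith) two_ne_zero
          nlinarith [sq_nonneg e]
        · push Not at hRe
          have hRp : 0 < R := by
            rcases hRpos.lt_or_eq with h | h
            · exact h
            · exfalso
              obtain ⟨a, b, c, hab, -, -, habc⟩ := Finset.card_eq_three.1 hcard
              have ha := hzt a (by rw [habc]; simp)
              have hb := hzt b (by rw [habc]; simp)
              rw [← h] at ha hb
              exact hab ((dist_eq_zero.1 ha).trans (dist_eq_zero.1 hb).symm)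
          have h5 : 0 ≤ dist x z ^ 2 := by positivity
          nlinarith)
    rw [sdiff_compl] at h1
    exact h1
  have hTball : ∀ t : 𝒯, T t ⊆ Metric.closedBall (0 : E) (R0 + 2 * ρ + 11) := by
    intro t
    refine convexHull_min ?_ (convex_closedBall _ _)
    intro p hp
    obtain ⟨⟨htP, -⟩, -⟩ := hmem t t.2
    obtain ⟨q, hq, hqn, hpq⟩ := hP2 p (htP hp)
    rw [Metric.mem_closedBall, dist_zero_right]
    have h1 : ‖p‖ ≤ ‖q‖ + dist p q := by
      have := norm_add_le q (p - q)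
      rwa [add_sub_cancel, ← dist_eq_norm] at this
    linarith
  have hdisj : Pairwise (AEDisjoint volume on T) := by
    intro t t' htt'
    exact convexHull_aedisjoint hPg (hmem t t.2).1 (hmem t' t'.2).1 fun h => htt' (Subtype.ext h)
  have hsum1 : ∑ t, volume.real (T t) ≤
      volume.real (Metric.closedBall (0 : E) (R0 + 2 * ρ + 11)) := by
    have h1 := measureReal_biUnion_finset₀ (μ := (volume : Measure E)) (s := Finset.univ) (f := T)
      (fun i _ j _ hij => hdisj hij) (fun b _ => (hTc b).measurableSet.nullMeasurableSet)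
      (fun b _ => (hTc b).measure_lt_top.ne)
    rw [← h1]
    refine measureReal_mono (iUnion₂_subset fun t _ => hTball t)
      (isCompact_closedBall _ _).measure_lt_top.ne
  have hsum2 : ∑ t, volume.real (T t ∩ Ω) ≤ volume.real Ω := by
    have h1 := measureReal_biUnion_finset₀ (μ := (volume : Measure E)) (s := Finset.univ)
      (f := fun t => T t ∩ Ω)
      (fun i _ j _ hij => (hdisj hij).mono inter_subset_left inter_subset_left)
      (fun b _ => ((hTc b).measurableSet.inter hΩ.measurableSet).nullMeasurableSet)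
      (fun b _ => ((measure_mono inter_subset_left).trans_lt (hTc b).measure_lt_top).ne)
    rw [← h1]
    exact measureReal_mono (iUnion₂_subset fun t _ => inter_subset_right) hΩfin
  have hint1 : ∫ x in Ω, f x ≤ ∑ t, ∫ x in T t, f x :=
    setIntegral_le_sum hcover f hf0 fun t => hfc.continuousOn.integrableOn_compact (hTc t)
  have hint2 : ∑ t, ∫ x in T t, f x ≤
      c0 * (r * volume.real Ω + 7 * Real.sqrt (r * e) *
        volume.real (Metric.closedBall (0 : E) (R0 + 2 * ρ + 11))) := by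
    calc ∑ t, ∫ x in T t, f x ≤ ∑ t, c0 * (r * volume.real (T t ∩ Ω) +
          7 * Real.sqrt (r * e) * volume.real (T t)) := Finset.sum_le_sum fun t _ => hstep t
      _ = c0 * (r * ∑ t, volume.real (T t ∩ Ω) +
          7 * Real.sqrt (r * e) * ∑ t, volume.real (T t)) := by
        rw [← Finset.mul_sum, Finset.sum_add_distrib, Finset.mul_sum, Finset.mul_sum]
      _ ≤ _ := by
        refine mul_le_mul_of_nonneg_left ?_ c0_pos.le
        have h1 := mul_le_mul_of_nonneg_left hsum2 hr0.le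
        have h2 := mul_le_mul_of_nonneg_left hsum1
          (by positivity : 0 ≤ 7 * Real.sqrt (r * e))
        linarith
  have hfi : IntegrableOn f Ω :=
    (hfc.continuousOn.integrableOn_compact (isCompact_closedBall (0 : E) R0)).mono_set
      fun x hx => by simpa using hR0 x hx
  have hdi : IntegrableOn (fun x => Metric.infDist x Ωᶜ) Ω :=
    ((Metric.continuous_infDist_pt _).continuousOn.integrableOn_compact
      (isCompact_closedBall (0 : E) R0)).mono_set fun x hx => by simpa using hR0 x hx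
  have hci : IntegrableOn (fun _ : E => e) Ω := integrableOn_const hΩfin enorm_ne_top
  have hfinal : ∫ x in Ω, Metric.infDist x Ωᶜ ≤ (∫ x in Ω, f x) + e * volume.real Ω := by
    have h1 : ∫ x in Ω, Metric.infDist x Ωᶜ ≤ ∫ x in Ω, (f x + e) :=
      setIntegral_mono hdi (hfi.add hci) hfΩ
    rw [integral_add hfi hci, setIntegral_const, smul_eq_mul, mul_comm] at h1
    linarith
  linarith

theorem upper {Ω : Set E} (hΩ : IsOpen Ω) (hb : Bornology.IsBounded Ω) {ρ : ℝ} (hρ0 : 0 ≤ ρ)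
    (hρ : ∀ x ∈ Ω, Metric.infDist x Ωᶜ ≤ ρ) :
    ∫ x in Ω, Metric.infDist x Ωᶜ ≤ c0 * ρ * volume.real Ω := by
  obtain ⟨R0, hR0⟩ := hb.exists_norm_le
  set R := max R0 0 with hR
  have h1 : ∀ x ∈ Ω, ‖x‖ ≤ R := fun x hx => (hR0 x hx).trans (le_max_left _ _)
  have h2 : 0 ≤ R := le_max_right _ _
  have h3 : ∀ᶠ e in 𝓝[>] (0 : ℝ), ∫ x in Ω, Metric.infDist x Ωᶜ ≤
      c0 * ((ρ + 2 * e) * volume.real Ω + 7 * Real.sqrt ((ρ + 2 * e) * e) *
        volume.real (Metric.closedBall (0 : E) (R + 2 * ρ + 11))) + e * volume.real Ω := by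
    filter_upwards [Ioc_mem_nhdsGT zero_lt_one] with e he
    exact upper_aux hΩ h1 h2 hρ0 hρ he.1 he.2
  have h4 : Tendsto (fun e : ℝ => c0 * ((ρ + 2 * e) * volume.real Ω +
      7 * Real.sqrt ((ρ + 2 * e) * e) *
        volume.real (Metric.closedBall (0 : E) (R + 2 * ρ + 11))) + e * volume.real Ω)
      (𝓝[>] 0) (𝓝 (c0 * ((ρ + 2 * 0) * volume.real Ω + 7 * Real.sqrt ((ρ + 2 * 0) * 0) *
        volume.real (Metric.closedBall (0 : E) (R + 2 * ρ + 11))) + 0 * volume.real Ω)) := by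
    apply Tendsto.mono_left _ nhdsWithin_le_nhds
    apply Continuous.tendsto
    fun_prop
  have h5 := ge_of_tendsto h4 h3
  simp only [mul_zero, add_zero, Real.sqrt_zero, zero_mul] at h5
  linarith

end Pool.Agent.MP_50360a_an
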